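import Pool.Agent.Helper66.IT.LA
import Pool.Agent.Helper57.LH.ZetaBd

/-!
# Littlewood's bound under the Riemann hypothesis, part 2
-/

set_option autoImplicit false

namespace Pool.Agent.Helper66.IT

open Complex Metric Set

theorem zeta_poly {s : ℂ} (hs : 1 / 2 < s.re) (h1 : 1 ≤ |s.im|) : ‖riemannZeta s‖ ≤ 5 * (1 + ‖s‖) ^ 2 := by
  have hne : s ≠ 1 := by
    rintro rfl
    rw [one_im, abs_zero] at h1
    linarith
  have h2 : 1 ≤ ‖s - 1‖ := by
    have := abs_im_le_norm (s - 1)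
    simp only [sub_im, one_im, sub_zero] at this
    linarith
  have h3 := Pool.Agent.Helper57.LH.norm_Zt_le (s := s) (by linarith)
  rw [Pool.Agent.Helper57.LH.Zt_eq (by linarith) hne, norm_mul] at h3
  nlinarith [norm_nonneg (riemannZeta s)]

theorem zeta_right : ∃ K : ℝ, 1 ≤ K ∧ ∀ s : ℂ, 5 / 4 ≤ s.re → ‖riemannZeta s‖ ≤ K := by
  have hsum : Summable fun n : ℕ => 1 / ((n : ℝ) + 1) ^ (5 / 4 : ℝ) := by
    have h := (summable_nat_add_iff 1).2 (Real.summable_one_div_nat_rpow.2 (show (1 : ℝ) < 5 / 4 by norm_num))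
    simpa using h
  refine ⟨max 1 (∑' n : ℕ, 1 / ((n : ℝ) + 1) ^ (5 / 4 : ℝ)), le_max_left _ _, fun s hs => ?_⟩
  refine le_trans ?_ (le_max_right _ _)
  rw [zeta_eq_tsum_one_div_nat_add_one_cpow (by linarith)]
  refine tsum_of_norm_bounded hsum.hasSum fun n => ?_
  have hn : (1 : ℝ) ≤ (n : ℝ) + 1 := by linarith [Nat.cast_nonneg (α := ℝ) n]
  rw [norm_div, norm_one]
  have h1 : ‖((n : ℂ) + 1) ^ s‖ = ((n : ℝ) + 1) ^ s.re := by
    rw [show ((n : ℂ) + 1) = (((n : ℝ) + 1 : ℝ) : ℂ) by push_cast; rfl, norm_cpow_eq_rpow_re_of_pos (by linarith)]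
  rw [h1]
  exact one_div_le_one_div_of_le (by positivity) (Real.rpow_le_rpow_of_exponent_le hn hs)

/-- `A x^e ≤ η x + B` for `e < 1` -/
theorem pow_lin {A e η : ℝ} (hA : 0 < A) (he0 : 0 < e) (he : e < 1) (hη : 0 < η) :
    ∃ B : ℝ, 0 ≤ B ∧ ∀ x : ℝ, 0 ≤ x → A * x ^ e ≤ η * x + B := by
  set x0 : ℝ := (A / η) ^ (1 / (1 - e)) with hx0
  have hx00 : 0 < x0 := by positivity
  refine ⟨A * x0 ^ e, by positivity, fun x hx => ?_⟩
  rcases le_total x x0 with h | h
  · have := Real.rpow_le_rpow hx h he0.le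
    nlinarith [mul_nonneg hη.le hx, mul_le_mul_of_nonneg_left this hA.le]
  · have hxp : 0 < x := hx00.trans_le h
    have h1 : A / η ≤ x ^ (1 - e) := by
      have h2 : x0 ^ (1 - e) = A / η := by
        rw [hx0, ← Real.rpow_mul (by positivity)]
        rw [one_div, inv_mul_cancel₀ (by linarith), Real.rpow_one]
      rw [← h2]
      exact Real.rpow_le_rpow hx00.le h (by linarith)
    have h3 : A ≤ η * x ^ (1 - e) := by
      rw [div_le_iff₀ hη] at h1
      linarith
    calc A * x ^ e ≤ η * x ^ (1 - e) * x ^ e := by gcongr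
      _ = η * x := by
          rw [mul_assoc, ← Real.rpow_add hxp]
          norm_num
      _ ≤ η * x + A * x0 ^ e := by
          have : 0 ≤ A * x0 ^ e := by positivity
          linarith

/-- **Littlewood's bound**: if zeta has no zeros to the right of the critical line, zeta and its inverse are `O(t^η)` there. -/
theorem littlewood (hRH : ∀ s : ℂ, 1 / 2 < s.re → s ≠ 1 → riemannZeta s ≠ 0) (δ η : ℝ) (hδ : 0 < δ) (hη : 0 < η) :
    ∃ C : ℝ, 0 < C ∧ ∀ s : ℂ, 1 / 2 + δ ≤ s.re → 1 ≤ |s.im| →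
      ‖riemannZeta s‖ ≤ C * |s.im| ^ η ∧ ‖(riemannZeta s)⁻¹‖ ≤ C * |s.im| ^ η := by
  obtain ⟨d, hd0, hd1, hd2⟩ : ∃ d : ℝ, 0 < d ∧ d < 1 / 4 ∧ 2 * d ≤ δ :=
    ⟨min (δ / 2) (1 / 8), by positivity, (min_le_right _ _).trans_lt (by norm_num), by
      have := min_le_left (δ / 2) (1 / 8)
      linarith⟩
  obtain ⟨e, he0, he1, hlog⟩ := log_bound hd0 hd1
  obtain ⟨K, hK1, hK⟩ := zeta_right
  set M1 : ℝ := Real.log (4 * K) + 1 with hM1
  have hlK : 0 ≤ Real.log (4 * K) := Real.log_nonneg (by linarith)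
  set A : ℝ := 4 * M1 * (3 / d) ^ e with hA
  have hA0 : 0 < A := by
    have : 0 < M1 := by linarith
    positivity
  obtain ⟨B, hB0, hB⟩ := pow_lin hA0 he0 he1 (show 0 < η / 2 by positivity)
  -- the compact part
  have hcomp : ∃ C : ℝ, 0 ≤ C ∧ ∀ s : ℂ, 1 / 2 + δ ≤ s.re → s.re ≤ 2 → 1 ≤ |s.im| → |s.im| ≤ 3 →
      ‖riemannZeta s‖ ≤ C ∧ ‖(riemannZeta s)⁻¹‖ ≤ C := by
    set S : Set ℂ := {s : ℂ | 1 / 2 + δ ≤ s.re ∧ s.re ≤ 2 ∧ 1 ≤ |s.im| ∧ |s.im| ≤ 3} with hS
    have hcl : IsClosed S := by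
      apply IsClosed.inter (isClosed_le continuous_const continuous_re)
      apply IsClosed.inter (isClosed_le continuous_re continuous_const)
      apply IsClosed.inter (isClosed_le continuous_const (continuous_abs.comp continuous_im))
      exact isClosed_le (continuous_abs.comp continuous_im) continuous_const
    have hbd : Bornology.IsBounded S := by
      refine (isBounded_iff_forall_norm_le).2 ⟨5, fun s hs => ?_⟩
      obtain ⟨h1, h2, h3, h4⟩ := hs
      refine (norm_le_abs_re_add_abs_im s).trans ?_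
      have : |s.re| ≤ 2 := by
        rw [abs_le]
        constructor <;> linarith
      linarith
    have hcpt : IsCompact S := isCompact_of_isClosed_isBounded hcl hbd
    have hne1 : ∀ s ∈ S, s ≠ 1 := by
      rintro s ⟨_, _, h3, _⟩ rfl
      rw [one_im, abs_zero] at h3
      linarith
    have hc1 : ContinuousOn riemannZeta S := fun s hs => (differentiableAt_riemannZeta (hne1 s hs)).continuousAt.continuousWithinAt
    have hc2 : ContinuousOn (fun s => (riemannZeta s)⁻¹) S := hc1.inv₀ fun s hs => hRH s (by linarith [hs.1]) (hne1 s hs)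
    obtain ⟨C1, hC1⟩ := hcpt.exists_bound_of_continuousOn hc1
    obtain ⟨C2, hC2⟩ := hcpt.exists_bound_of_continuousOn hc2
    refine ⟨max 0 (max C1 C2), le_max_left _ _, fun s h1 h2 h3 h4 => ?_⟩
    have hs : s ∈ S := ⟨h1, h2, h3, h4⟩
    exact ⟨(hC1 s hs).trans ((le_max_left _ _).trans (le_max_right _ _)),
      (hC2 s hs).trans ((le_max_right _ _).trans (le_max_right _ _))⟩
  obtain ⟨C3, hC3, hcomp⟩ := hcomp
  set C4 : ℝ := (K + 4) * (Real.exp B * 200 ^ (η / 2)) with hC4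
  have hC40 : 0 < C4 := by positivity
  refine ⟨K + 4 + C3 + C4, by positivity, fun s hs him => ?_⟩
  have him0 : 0 < |s.im| := by linarith
  have hp1 : 1 ≤ |s.im| ^ η := Real.one_le_rpow him hη.le
  have hp0 : 0 < |s.im| ^ η := by positivity
  rcases le_total 2 s.re with h2 | h2
  · -- far right
    have h3 := hK s (by linarith)
    have h4 := Pool.Agent.Helper57.Zeta.norm_zeta_ge h2
    have h5 : ‖(riemannZeta s)⁻¹‖ ≤ 4 := by
      rw [norm_inv]
      calc ‖riemannZeta s‖⁻¹ ≤ (1 / 4 : ℝ)⁻¹ := inv_anti₀ (by norm_num) h4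
        _ = 4 := by norm_num
    constructor
    · calc ‖riemannZeta s‖ ≤ K * 1 := by linarith
        _ ≤ (K + 4 + C3 + C4) * |s.im| ^ η := by
            apply mul_le_mul _ hp1 zero_le_one (by positivity)
            linarith
    · calc ‖(riemannZeta s)⁻¹‖ ≤ 4 * 1 := by linarith
        _ ≤ (K + 4 + C3 + C4) * |s.im| ^ η := by
            apply mul_le_mul _ hp1 zero_le_one (by positivity)
            linarith
  rcases le_total |s.im| 3 with h3 | h3
  · obtain ⟨h4, h5⟩ := hcomp s hs h2 him h3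
    constructor
    · calc ‖riemannZeta s‖ ≤ C3 * 1 := by linarith
        _ ≤ (K + 4 + C3 + C4) * |s.im| ^ η := by
            apply mul_le_mul _ hp1 zero_le_one (by positivity)
            linarith
    · calc ‖(riemannZeta s)⁻¹‖ ≤ C3 * 1 := by linarith
        _ ≤ (K + 4 + C3 + C4) * |s.im| ^ η := by
            apply mul_le_mul _ hp1 zero_le_one (by positivity)
            linarith
  -- the main case
  set T : ℝ := s.im with hT
  set z0 : ℂ := 2 + T * I with hz0
  have hz0re : ∀ z : ℂ, (z0 + z).re = 2 + z.re := fun z => by simp [hz0]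
  have hz0im : ∀ z : ℂ, (z0 + z).im = T + z.im := fun z => by simp [hz0]
  have hre : ∀ z ∈ ball (0 : ℂ) (3 / 2), 1 / 2 < (z0 + z).re := fun z hz => by
    rw [mem_ball_zero_iff] at hz
    have := (abs_le.1 ((abs_re_le_norm z).trans hz.le)).1
    have h4 := abs_re_le_norm z
    have h5 : -z.re < 3 / 2 := (neg_le_abs z.re).trans_lt (h4.trans_lt hz)
    rw [hz0re]
    linarith
  have himz : ∀ z ∈ ball (0 : ℂ) (3 / 2), 1 ≤ |(z0 + z).im| := fun z hz => by
    rw [mem_ball_zero_iff] at hz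
    have h4 := abs_im_le_norm z
    rw [hz0im]
    have h5 : |T| ≤ |T + z.im| + |z.im| := by
      have := abs_sub (T + z.im) z.im
      rwa [add_sub_cancel_right] at this
    linarith
  have hne1 : ∀ z ∈ ball (0 : ℂ) (3 / 2), z0 + z ≠ 1 := fun z hz h => by
    have := himz z hz
    rw [h, one_im, abs_zero] at this
    linarith
  set F : ℂ → ℂ := fun z => riemannZeta (z0 + z) with hF
  have hFd : DifferentiableOn ℂ F (ball 0 (3 / 2)) := fun z hz => by
    have h4 := differentiableAt_riemannZeta (hne1 z hz)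
    have h5 : DifferentiableAt ℂ (fun z : ℂ => z0 + z) z := by fun_prop
    exact (DifferentiableAt.comp z h4 h5).differentiableWithinAt
  have hFne : ∀ z ∈ ball (0 : ℂ) (3 / 2), F z ≠ 0 := fun z hz => hRH _ (hre z hz) (hne1 z hz)
  obtain ⟨G, hGd, hG0, hG⟩ := exists_log_ball (by norm_num) hFd hFne
  have hF0a : 1 / 4 ≤ ‖F 0‖ := Pool.Agent.Helper57.Zeta.norm_zeta_ge (by rw [hz0re]; simp)
  have hF0b : ‖F 0‖ ≤ K := hK _ (by rw [hz0re]; norm_num)
  have hFG : ∀ z ∈ ball (0 : ℂ) (3 / 2), ‖F z‖ = ‖F 0‖ * Real.exp (G z).re := fun z hz => by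
    rw [hG z hz, norm_mul, norm_exp]
  have hReG : ∀ z ∈ ball (0 : ℂ) (3 / 2), ∀ m : ℝ, ‖F z‖ ≤ m → (G z).re ≤ Real.log (4 * m) := fun z hz m hm => by
    have h4 : 0 < ‖F z‖ := norm_pos_iff.2 (hFne z hz)
    rw [Real.le_log_iff_exp_le (by linarith)]
    have h5 := hFG z hz
    have h6 : 0 < Real.exp (G z).re := Real.exp_pos _
    nlinarith
  have hin : ∀ z ∈ ball (0 : ℂ) (3 / 4), (G z).re ≤ M1 := fun z hz => by
    have hz2 : z ∈ ball (0 : ℂ) (3 / 2) := ball_subset_ball (by norm_num) hz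
    rw [mem_ball_zero_iff] at hz
    have h5 : -z.re < 3 / 4 := (neg_le_abs z.re).trans_lt ((abs_re_le_norm z).trans_lt hz)
    have h6 := hReG z hz2 K (hK _ (by rw [hz0re]; linarith))
    linarith
  have hout : ∀ z ∈ ball (0 : ℂ) (3 / 2), (G z).re ≤ Real.log (200 * |T| ^ 2) := fun z hz => by
    have h4 := zeta_poly (hre z hz) (himz z hz)
    have h5 : ‖z0 + z‖ ≤ 7 / 2 + |T| := by
      rw [mem_ball_zero_iff] at hz
      calc ‖z0 + z‖ ≤ ‖z0‖ + ‖z‖ := norm_add_le _ _
        _ ≤ (2 + |T|) + 3 / 2 := by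
            gcongr
            rw [hz0]
            refine (norm_add_le _ _).trans ?_
            rw [norm_mul, norm_I, mul_one, norm_real, Real.norm_eq_abs]
            norm_num
        _ = 7 / 2 + |T| := by ring
    have h6 := hReG z hz (50 * |T| ^ 2) (by
      refine h4.trans ?_
      have h7 : 1 + ‖z0 + z‖ ≤ 5 / 2 * |T| := by linarith
      have h8 : (1 + ‖z0 + z‖) ^ 2 ≤ (5 / 2 * |T|) ^ 2 := pow_le_pow_left₀ (by positivity) h7 2
      nlinarith [sq_nonneg T, sq_abs T])
    rwa [show 4 * (50 * |T| ^ 2) = 200 * |T| ^ 2 by ring] at h6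
  have hM : 1 ≤ Real.log (200 * |T| ^ 2) := by
    rw [Real.le_log_iff_exp_le (by positivity)]
    have := Real.exp_one_lt_d9
    nlinarith
  have hsz : z0 + (s - z0) = s := by ring
  have hsz1 : s - z0 = ((s.re - 2 : ℝ) : ℂ) := by
    apply Complex.ext
    · simp [hz0]
    · simp [hz0, hT]
  have hnz : ‖s - z0‖ ≤ 3 / 2 - 2 * d := by
    rw [hsz1, norm_real, Real.norm_eq_abs, abs_of_nonpos (by linarith)]
    linarith
  have hzb : s - z0 ∈ ball (0 : ℂ) (3 / 2) := mem_ball_zero_iff.2 (by linarith)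
  have hGb := hlog G M1 (Real.log (200 * |T| ^ 2)) (by linarith) hM hGd hG0 hin hout (s - z0) hnz
  have hGb2 : ‖G (s - z0)‖ ≤ η / 2 * Real.log (200 * |T| ^ 2) + B := by
    refine hGb.trans ?_
    have h4 := hB (Real.log (200 * |T| ^ 2)) (by linarith)
    refine le_trans (le_of_eq ?_) h4
    rw [hA, Real.mul_rpow (by positivity) (by linarith)]
    ring
  have hexpb : Real.exp ‖G (s - z0)‖ ≤ Real.exp B * 200 ^ (η / 2) * |T| ^ η := by
    refine (Real.exp_le_exp.2 hGb2).trans (le_of_eq ?_)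
    have h4 : (|T| ^ 2) ^ (η / 2) = |T| ^ η := by
      rw [← Real.rpow_natCast, ← Real.rpow_mul (by positivity)]
      congr 1
      push_cast
      ring
    rw [Real.exp_add, mul_comm (η / 2), ← Real.rpow_def_of_pos (by positivity), Real.mul_rpow (by norm_num) (by positivity), h4]
    ring
  have hre1 := abs_le.1 (abs_re_le_norm (G (s - z0)))
  have hFs : F (s - z0) = riemannZeta s := by
    simp only [hF]
    rw [hsz]
  have hns : ‖riemannZeta s‖ = ‖F 0‖ * Real.exp (G (s - z0)).re := by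
    rw [← hFs]
    exact hFG _ hzb
  constructor
  · rw [hns]
    calc ‖F 0‖ * Real.exp (G (s - z0)).re ≤ K * Real.exp ‖G (s - z0)‖ := by
          gcongr
          exact hre1.2
      _ ≤ (K + 4) * (Real.exp B * 200 ^ (η / 2) * |T| ^ η) := by
          apply mul_le_mul (by linarith) hexpb (Real.exp_pos _).le (by linarith)
      _ = C4 * |T| ^ η := by rw [hC4]; ring
      _ ≤ (K + 4 + C3 + C4) * |T| ^ η := by
          apply mul_le_mul_of_nonneg_right _ hp0.le
          linarith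
  · rw [norm_inv, hns, mul_inv, ← Real.exp_neg]
    calc ‖F 0‖⁻¹ * Real.exp (-(G (s - z0)).re) ≤ (1 / 4 : ℝ)⁻¹ * Real.exp ‖G (s - z0)‖ := by
          gcongr
          linarith [hre1.1]
      _ ≤ (K + 4) * (Real.exp B * 200 ^ (η / 2) * |T| ^ η) := by
          apply mul_le_mul (by norm_num; linarith) hexpb (Real.exp_pos _).le (by linarith)
      _ = C4 * |T| ^ η := by rw [hC4]; ring
      _ ≤ (K + 4 + C3 + C4) * |T| ^ η := by
          apply mul_le_mul_of_nonneg_right _ hp0.le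
          linarith

end Pool.Agent.Helper66.IT
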