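import Pool.Agent.Helper66.IT.BC

/-!
# Project IT (MP_a499ba_nt), block C: real and imaginary parts
-/

set_option autoImplicit false

namespace Pool.Agent.IT

open Finset MeasureTheory Pool.Agent.Helper5.RM Pool.Agent.Helper96.AF Pool.Agent.Helper66.LW
open scoped ContDiff ComplexConjugate

theorem Hc_re (h : ℕ → ℂ) (n : ℕ) : (Hc h n).re = Hs (fun n => (h n).re) n := by
  unfold Hc Hs
  exact Complex.re_sum _ _

theorem Hc_im (h : ℕ → ℂ) (n : ℕ) : (Hc h n).im = Hs (fun n => (h n).im) n := by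
  unfold Hc Hs
  exact Complex.im_sum _ _

theorem Ac_re (h : ℕ → ℂ) (v : ℝ) : (Ac h v).re = Av (fun n => (h n).re) v := by
  unfold Ac Av
  rw [Complex.re_ofReal_mul, Hc_re]

theorem Ac_im (h : ℕ → ℂ) (v : ℝ) : (Ac h v).im = Av (fun n => (h n).im) v := by
  unfold Ac Av
  rw [Complex.im_ofReal_mul, Hc_im]

theorem Ac_sq (h : ℕ → ℂ) (v : ℝ) : ‖Ac h v‖ ^ 2 = Av (fun n => (h n).re) v ^ 2 + Av (fun n => (h n).im) v ^ 2 := by
  rw [← Complex.normSq_eq_norm_sq, Complex.normSq_apply, Ac_re, Ac_im]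
  ring

private theorem av_ii {h : ℕ → ℝ} (hh : ∀ n, |h n| ≤ 1) (a b : ℝ) : IntervalIntegrable (fun v => Av h v ^ 2) volume a b := by
  have h1 : IntervalIntegrable (fun v : ℝ => Real.exp (v / 2) ^ 2) volume a b :=
    (Continuous.intervalIntegrable (by fun_prop) _ _)
  refine h1.mono_fun ((measurable_Av h).pow_const 2).aestronglyMeasurable ?_
  refine Filter.Eventually.of_forall fun v => ?_
  simp only [norm_pow, Real.norm_eq_abs, Real.abs_exp]
  exact pow_le_pow_left₀ (abs_nonneg _) (abs_Av_le hh v) 2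

theorem conj_term (a : ℂ) (n : ℕ) (s t : ℝ) :
    conj (a * (n : ℂ) ^ (-((s : ℂ) + Complex.I * ((-t : ℝ) : ℂ)))) = conj a * (n : ℂ) ^ (-((s : ℂ) + Complex.I * (t : ℂ))) := by
  rw [map_mul]
  congr 1
  have h1 : (-((s : ℂ) + Complex.I * (t : ℂ))) = conj (-((s : ℂ) + Complex.I * ((-t : ℝ) : ℂ))) := by
    simp [Complex.conj_I]
  rw [h1, Complex.cpow_conj]
  · rw [Complex.conj_natCast]
  · rw [Complex.natCast_arg]
    exact Real.pi_pos.ne

private theorem hs_congr {f g : ℕ → ℂ} {a : ℂ} (h : HasSum f a) (e : ∀ n, f n = g n) : HasSum g a := by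
  have : f = g := funext e
  rwa [← this]

theorem stmtC : StmtC := by
  intro r h D B hA
  have hre : ∀ n, |(h n).re| ≤ ‖h n‖ := fun n => Complex.abs_re_le_norm _
  have him : ∀ n, |(h n).im| ≤ ‖h n‖ := fun n => Complex.abs_im_le_norm _
  have hre1 : ∀ n, |(h n).re| ≤ 1 := fun n => (hre n).trans (hA.le_one n)
  have him1 : ∀ n, |(h n).im| ≤ 1 := fun n => (him n).trans (hA.le_one n)
  have hsm : ContDiff ℝ ∞ (fun t : ℝ => conj (D (-t))) :=
    Complex.conjCLE.contDiff.comp (hA.smooth.comp contDiff_neg)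
  have hsum : ∀ t : ℝ, HasSum (fun n : ℕ => conj (h n) * (n : ℂ) ^ (-(((1 / 2 + sr r : ℝ) : ℂ) + Complex.I * (t : ℂ)))) (conj (D (-t))) := by
    intro t
    have h1 := (hA.hasSum (-t)).mapL Complex.conjCLE.toContinuousLinearMap
    exact hs_congr h1 fun n => conj_term (h n) n _ t
  have hV := Vr_pos r
  have hsqi : ∀ v, Av (fun n => (h n).re) v ^ 2 ≤ ‖Ac h v‖ ^ 2 := fun v => by
    rw [Ac_sq]
    linarith [sq_nonneg (Av (fun n => (h n).im) v)]
  have hsqi2 : ∀ v, Av (fun n => (h n).im) v ^ 2 ≤ ‖Ac h v‖ ^ 2 := fun v => by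
    rw [Ac_sq]
    linarith [sq_nonneg (Av (fun n => (h n).re) v)]
  have hii : IntervalIntegrable (fun v => ‖Ac h v‖ ^ 2) volume 0 (2 * Vr r) := by
    simp only [Ac_sq]
    exact (av_ii hre1 _ _).add (av_ii him1 _ _)
  have hint : ∀ g : ℕ → ℝ, (∀ v, Av g v ^ 2 ≤ ‖Ac h v‖ ^ 2) →
      IntegrableOn (fun v => Av g v ^ 2 * Real.exp (-(sr r * v))) (Set.Ioi 0) := by
    intro g hg
    refine Integrable.mono' hA.int ?_ ?_
    · refine Measurable.aestronglyMeasurable ?_
      exact ((measurable_Av g).pow_const 2).mul (by fun_prop)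
    · refine Filter.Eventually.of_forall fun v => ?_
      rw [Real.norm_eq_abs, abs_of_nonneg (by positivity)]
      exact mul_le_mul_of_nonneg_right (hg v) (Real.exp_pos _).le
  constructor
  · refine ⟨hre1, ?_, ?_, ?_, hint _ hsqi, ?_, ?_⟩
    · exact Summable.of_nonneg_of_le (fun n => by positivity)
        (fun n => mul_le_mul_of_nonneg_right (hre n) (by positivity)) hA.summ
    · exact (hA.smooth.add hsm).div_const 2
    · intro t
      have h1 := ((hA.hasSum t).add (hsum t)).div_const 2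
      refine hs_congr h1 fun n => ?_
      rw [← add_mul, Complex.add_conj]
      push_cast
      ring
    · refine le_trans (intervalIntegral.integral_mono_on (by linarith) (av_ii hre1 _ _) hii fun v _ => hsqi v) hA.mass0
    · refine le_trans (setIntegral_mono_on (hint _ hsqi) hA.int measurableSet_Ioi fun v _ => ?_) hA.mass1
      exact mul_le_mul_of_nonneg_right (hsqi v) (Real.exp_pos _).le
  · refine ⟨him1, ?_, ?_, ?_, hint _ hsqi2, ?_, ?_⟩
    · exact Summable.of_nonneg_of_le (fun n => by positivity)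
        (fun n => mul_le_mul_of_nonneg_right (him n) (by positivity)) hA.summ
    · exact (hA.smooth.sub hsm).div_const _
    · intro t
      have h1 := ((hA.hasSum t).sub (hsum t)).div_const (2 * Complex.I)
      refine hs_congr h1 fun n => ?_
      rw [← sub_mul, Complex.sub_conj]
      push_cast
      have hI := Complex.I_ne_zero
      field_simp
    · refine le_trans (intervalIntegral.integral_mono_on (by linarith) (av_ii him1 _ _) hii fun v _ => hsqi2 v) hA.mass0
    · refine le_trans (setIntegral_mono_on (hint _ hsqi2) hA.int measurableSet_Ioi fun v _ => ?_) hA.mass1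
      exact mul_le_mul_of_nonneg_right (hsqi2 v) (Real.exp_pos _).le

end Pool.Agent.IT
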