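import Pool.Agent.Helper56.IT.Stmts

/-!
# Project IT (MP_a499ba_nt), block D: the coefficient of the sign at the prime `p`
-/

set_option autoImplicit false

namespace Pool.Agent.IT

open Finset MeasureTheory Pool.Agent.Helper5.RM Pool.Agent.Helper96.AF Pool.Agent.Helper66.LW

/-- the coefficient of the sign at `p ∈ BL r` -/
noncomputable def bC (K : Ker) (r : ℕ) (h : ℕ → ℂ) (th : ℕ → ℝ) (u : ℝ) (p : ℕ) : ℝ :=
  Real.cos (th p) * aC K r (fun n => (h n).re) u p - Real.sin (th p) * aC K r (fun n => (h n).im) u p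

/-- block D1: the separation of the real and imaginary parts -/
def StmtD1 : Prop := ∀ K : Ker, ∃ c : ℝ, 0 < c ∧ ∀ (A δ : ℝ), 0 < A → 0 < δ → δ ≤ 1 / 16 → ∃ r0 : ℕ, ∀ r : ℕ, r0 ≤ r →
  ∀ (h : ℕ → ℂ) (D : ℝ → ℂ), AdmC r h D (A * 2 ^ r) → Low δ r D → ∀ i j : ℕ, i + 2 ^ (r / 4) ≤ j → (j : ℝ) ≤ 1 / sr r →
    c * (r : ℝ) ^ (-(1 / 2) - δ) ≤ ∑ p ∈ BL r,
      ((aC K r (fun n => (h n).re) (Ur r + i) p - aC K r (fun n => (h n).re) (Ur r + j) p) ^ 2 +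
        (aC K r (fun n => (h n).im) (Ur r + i) p - aC K r (fun n => (h n).im) (Ur r + j) p) ^ 2)

end Pool.Agent.IT
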