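import Pool.Agent.Helper66.IT.D2
import Pool.Agent.Helper66.LW.W

/-!
# Project IT (MP_a499ba_nt), block D: one scale
-/

set_option autoImplicit false

namespace Pool.Agent.IT

open Finset MeasureTheory Pool.Agent.Helper5.RM Pool.Agent.Helper96.AF Pool.Agent.Helper96.AG Pool.Agent.Helper66.LW

theorem stmtD (hC : StmtC) (hZ : StmtZ) (hS : StmtS) (hD1 : StmtD1) : StmtD := by
  intro A δ η hA0 hδ hδ2 hη
  obtain ⟨K⟩ := ker_nonempty
  obtain ⟨c, hc, hD1⟩ := hD1 K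
  obtain ⟨C1, hC1, r1, hsel⟩ := select K
  obtain ⟨r2, hlow⟩ := hD1 A δ hA0 hδ hδ2
  obtain ⟨r3, hone⟩ := d2 hC hZ K C1 (c / 4) A δ (η / 2) hC1 (by positivity) hA0 hδ hδ2 (by positivity)
  obtain ⟨r4, hsmall⟩ := a_small K
  obtain ⟨r5, hev⟩ := pow_le_Vr 1 (c * η / 256) (by positivity) 3 (by norm_num)
  refine ⟨r1 + r2 + r3 + r4 + r5 + 4, fun r hr h D hAd hLow ph => ?_⟩
  have hx : (1 : ℝ) ≤ r := by exact_mod_cast (show 1 ≤ r by omega)
  have hx0 : (0 : ℝ) < r := by linarith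
  have hV := Vr_pos r
  have hV2 := le_Vr r
  have h2r : (0 : ℝ) < 2 ^ r := by positivity
  obtain ⟨hAR, hAI⟩ := hC r h D _ hAd
  obtain ⟨Δ, τ, hΔ, J, hJ, hJc, hJp⟩ := hsel r (by omega) _ _ _ hAR
  have hα : ∀ i ∈ J, (0 : ℝ) ≤ ((τ + i * Δ : ℕ) : ℝ) ∧ ((τ + i * Δ : ℕ) : ℝ) ≤ 1 / sr r := fun i hi =>
    ⟨Nat.cast_nonneg _, (hJp i hi).1⟩
  -- the differences
  set x : ℕ → ℕ → ℕ → ℝ := fun i j p => aC K r (fun n => (h n).re) (Ur r + (τ + i * Δ : ℕ)) p -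
    aC K r (fun n => (h n).re) (Ur r + (τ + j * Δ : ℕ)) p with hxd
  set y : ℕ → ℕ → ℕ → ℝ := fun i j p => aC K r (fun n => (h n).im) (Ur r + (τ + i * Δ : ℕ)) p -
    aC K r (fun n => (h n).im) (Ur r + (τ + j * Δ : ℕ)) p with hyd
  have hm : ∀ i ∈ J, ∀ j ∈ J, ∀ p ∈ BL r, x i j p ^ 2 + y i j p ^ 2 ≤ 8 / Vr r ^ 4 := by
    intro i hi j hj p hp
    have h1 := hsmall r (by omega) _ hAR.le_one _ (hα i hi).1 (hα i hi).2 p hp
    have h2 := hsmall r (by omega) _ hAR.le_one _ (hα j hj).1 (hα j hj).2 p hp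
    have h3 := hsmall r (by omega) _ hAI.le_one _ (hα i hi).1 (hα i hi).2 p hp
    have h4 := hsmall r (by omega) _ hAI.le_one _ (hα j hj).1 (hα j hj).2 p hp
    have h5 : |x i j p| ≤ 2 / Vr r ^ 2 := by
      refine (abs_sub _ _).trans ?_
      calc _ ≤ 1 / Vr r ^ 2 + 1 / Vr r ^ 2 := add_le_add h1 h2
        _ = 2 / Vr r ^ 2 := by ring
    have h6 : |y i j p| ≤ 2 / Vr r ^ 2 := by
      refine (abs_sub _ _).trans ?_
      calc _ ≤ 1 / Vr r ^ 2 + 1 / Vr r ^ 2 := add_le_add h3 h4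
        _ = 2 / Vr r ^ 2 := by ring
    have h7 : x i j p ^ 2 ≤ (2 / Vr r ^ 2) ^ 2 := by
      rw [← sq_abs]
      exact pow_le_pow_left₀ (abs_nonneg _) h5 2
    have h8 : y i j p ^ 2 ≤ (2 / Vr r ^ 2) ^ 2 := by
      rw [← sq_abs]
      exact pow_le_pow_left₀ (abs_nonneg _) h6 2
    calc x i j p ^ 2 + y i j p ^ 2 ≤ (2 / Vr r ^ 2) ^ 2 + (2 / Vr r ^ 2) ^ 2 := add_le_add h7 h8
      _ = 8 / Vr r ^ 4 := by
          rw [div_pow]
          ring
  have hbig : ∀ i ∈ J, ∀ j ∈ J, i ≠ j → c * (r : ℝ) ^ (-(1 / 2) - δ) ≤ ∑ p ∈ BL r, (x i j p ^ 2 + y i j p ^ 2) := by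
    have hpow : 2 ^ (r / 4) ≤ 2 ^ (r / 2) := Nat.pow_le_pow_right (by norm_num) (by omega)
    have main : ∀ i ∈ J, ∀ j ∈ J, i < j → c * (r : ℝ) ^ (-(1 / 2) - δ) ≤ ∑ p ∈ BL r, (x i j p ^ 2 + y i j p ^ 2) := by
      intro i hi j hj hij
      have h1 : τ + i * Δ + 2 ^ (r / 4) ≤ τ + j * Δ := by
        have h2 : (i + 1) * Δ ≤ j * Δ := Nat.mul_le_mul_right _ hij
        have h3 : (i + 1) * Δ = i * Δ + Δ := by ring
        omega
      exact hlow r (by omega) h D hAd hLow (τ + i * Δ) (τ + j * Δ) h1 (hJp j hj).1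
    intro i hi j hj hij
    rcases lt_or_gt_of_ne hij with hlt | hlt
    · exact main i hi j hj hlt
    · refine (main j hj i hi hlt).trans (le_of_eq (Finset.sum_congr rfl fun p _ => ?_))
      simp only [hxd, hyd]
      ring
  -- the bad set of quarter turns
  set bad : Finset ℕ → Prop := fun T2 => ∃ q ∈ (J ×ˢ J).filter (fun q => q.1 ≠ q.2),
    ∑ p ∈ BL r, (Real.cos (tt ph T2 p) * x q.1 q.2 p - Real.sin (tt ph T2 p) * y q.1 q.2 p) ^ 2 <
      (∑ p ∈ BL r, (x q.1 q.2 p ^ 2 + y q.1 q.2 p ^ 2)) / 4 with hbad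
  have hbadle : pr (BL r) bad ≤ η / 2 := by
    have h1 : pr (BL r) bad ≤ ∑ q ∈ (J ×ˢ J).filter (fun q => q.1 ≠ q.2), 64 * (r : ℝ) / (c * Vr r ^ 4) := by
      refine (pr_exists _ _ _).trans (Finset.sum_le_sum fun q hq => ?_)
      rw [Finset.mem_filter, Finset.mem_product] at hq
      obtain ⟨⟨hq1, hq2⟩, hq3⟩ := hq
      refine (hS (BL r) (x q.1 q.2) (y q.1 q.2) (8 / Vr r ^ 4) (by positivity) (hm _ hq1 _ hq2) ph).trans ?_
      have h2 := hbig _ hq1 _ hq2 hq3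
      have h3 : c * Vr r ^ 4 / (64 * r) ≤ (∑ p ∈ BL r, (x q.1 q.2 p ^ 2 + y q.1 q.2 p ^ 2)) / (8 * (8 / Vr r ^ 4)) := by
        have h4 : (r : ℝ)⁻¹ ≤ (r : ℝ) ^ (-(1 / 2) - δ) := by
          rw [← Real.rpow_neg_one]
          exact Real.rpow_le_rpow_of_exponent_le hx (by linarith)
        have h5 : c * (r : ℝ)⁻¹ ≤ ∑ p ∈ BL r, (x q.1 q.2 p ^ 2 + y q.1 q.2 p ^ 2) :=
          le_trans (by gcongr) h2
        calc c * Vr r ^ 4 / (64 * r) = c * (r : ℝ)⁻¹ / (8 * (8 / Vr r ^ 4)) := by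
              field_simp
              ring
          _ ≤ _ := by gcongr
      have h4 : 0 < c * Vr r ^ 4 / (64 * r) := by positivity
      calc Real.exp (-((∑ p ∈ BL r, (x q.1 q.2 p ^ 2 + y q.1 q.2 p ^ 2)) / (8 * (8 / Vr r ^ 4))))
          ≤ Real.exp (-(c * Vr r ^ 4 / (64 * r))) := Real.exp_le_exp.2 (neg_le_neg h3)
        _ = (Real.exp (c * Vr r ^ 4 / (64 * r)))⁻¹ := Real.exp_neg _
        _ ≤ (c * Vr r ^ 4 / (64 * r))⁻¹ := by
            apply inv_anti₀ h4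
            linarith [Real.add_one_le_exp (c * Vr r ^ 4 / (64 * r))]
        _ = 64 * (r : ℝ) / (c * Vr r ^ 4) := inv_div _ _
    refine h1.trans ?_
    rw [Finset.sum_const, nsmul_eq_mul]
    have h2 : (((J ×ˢ J).filter (fun q => q.1 ≠ q.2)).card : ℝ) ≤ 2 * Vr r := by
      have h3 : ((J ×ˢ J).filter (fun q => q.1 ≠ q.2)).card ≤ 2 ^ r := by
        have h4 := Finset.card_le_card hJ
        rw [Finset.card_range] at h4
        calc _ ≤ (J ×ˢ J).card := Finset.card_filter_le _ _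
          _ = J.card * J.card := Finset.card_product _ _
          _ ≤ 2 ^ (r / 8) * 2 ^ (r / 8) := Nat.mul_le_mul h4 h4
          _ = 2 ^ (r / 8 + r / 8) := (pow_add _ _ _).symm
          _ ≤ 2 ^ r := Nat.pow_le_pow_right (by norm_num) (by omega)
      have h5 : (((J ×ˢ J).filter (fun q => q.1 ≠ q.2)).card : ℝ) ≤ 2 ^ r := by exact_mod_cast h3
      linarith
    have h3 := hev r (by omega)
    rw [pow_one] at h3
    calc (((J ×ˢ J).filter (fun q => q.1 ≠ q.2)).card : ℝ) * (64 * (r : ℝ) / (c * Vr r ^ 4))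
        ≤ 2 * Vr r * (64 * (r : ℝ) / (c * Vr r ^ 4)) := by gcongr
      _ ≤ 2 * Vr r * (64 * (c * η / 256 * Vr r ^ 3) / (c * Vr r ^ 4)) := by gcongr
      _ = η / 2 := by
          field_simp
          ring
  -- conclusion
  classical
  have hfin : ∀ T2 ⊆ BL r, pr (BL r) (fun T1 => ∀ n ∈ Finset.Icc (Y r) (Y (r + 1)),
      (Hc h n + ∑ p ∈ BL r, fp (tt ph T2) T1 p * Hc h (n / p)).re ≤ (r : ℝ) ^ (1 / 4 - δ) * Real.sqrt n) ≤
      (if bad T2 then 1 else 0) + η / 2 := by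
    intro T2 _
    by_cases hb : bad T2
    · rw [if_pos hb]
      linarith [pr_le_one (BL r) (fun T1 => ∀ n ∈ Finset.Icc (Y r) (Y (r + 1)),
        (Hc h n + ∑ p ∈ BL r, fp (tt ph T2) T1 p * Hc h (n / p)).re ≤ (r : ℝ) ^ (1 / 4 - δ) * Real.sqrt n)]
    · rw [if_neg hb, zero_add]
      refine hone r (by omega) h D hAd Δ τ J hJ hJc hJp (tt ph T2) fun i hi j hj hij => ?_
      have h1 : ¬ (∑ p ∈ BL r, (Real.cos (tt ph T2 p) * x i j p - Real.sin (tt ph T2 p) * y i j p) ^ 2 <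
          (∑ p ∈ BL r, (x i j p ^ 2 + y i j p ^ 2)) / 4) := fun hlt => hb ⟨(i, j), by
            rw [Finset.mem_filter, Finset.mem_product]
            exact ⟨⟨hi, hj⟩, hij⟩, hlt⟩
      have h2 := not_lt.1 h1
      have h3 := hbig i hi j hj hij
      have h4 : ∑ p ∈ BL r, (bC K r h (tt ph T2) (Ur r + (τ + i * Δ : ℕ)) p - bC K r h (tt ph T2) (Ur r + (τ + j * Δ : ℕ)) p) ^ 2 =
          ∑ p ∈ BL r, (Real.cos (tt ph T2 p) * x i j p - Real.sin (tt ph T2 p) * y i j p) ^ 2 :=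
        Finset.sum_congr rfl fun p _ => by
          unfold bC
          simp only [hxd, hyd]
          ring
      rw [h4]
      linarith
  refine (av_mono hfin).trans ?_
  rw [av_add, av_const]
  have h1 : av (BL r) (fun T2 => if bad T2 then (1 : ℝ) else 0) = pr (BL r) bad := by
    unfold pr
    exact av_congr fun T _ => by congr
  rw [h1]
  linarith

end Pool.Agent.IT
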