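import Pool.Agent.Helper66.IT.BC

/-!
# Project IT (MP_a499ba_nt), block D2: one scale, for phases with separated coefficients
-/

set_option autoImplicit false

namespace Pool.Agent.IT

open Finset MeasureTheory Pool.Agent.Helper5.RM Pool.Agent.Helper96.AF Pool.Agent.Helper96.AG Pool.Agent.Helper66.LW

private theorem ev_rpow_small (a c : ℝ) (ha : a < 0) (hc : 0 < c) : ∃ r0 : ℕ, ∀ r : ℕ, r0 ≤ r → (r : ℝ) ^ a ≤ c := by
  have h := (tendsto_rpow_neg_atTop (show 0 < -a by linarith)).comp tendsto_natCast_atTop_atTop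
  have h2 := h.eventually_le_const hc
  obtain ⟨r0, h0⟩ := Filter.eventually_atTop.1 h2
  refine ⟨r0, fun r hr => ?_⟩
  have := h0 r hr
  simpa using this

private theorem ev_log_small (a c : ℝ) (ha : 0 < a) (hc : 0 < c) : ∃ r0 : ℕ, ∀ r : ℕ, r0 ≤ r → Real.log r ≤ c * (r : ℝ) ^ a := by
  have h := (isLittleO_log_rpow_atTop ha).tendsto_div_nhds_zero.comp tendsto_natCast_atTop_atTop
  have h2 := h.eventually_le_const hc
  obtain ⟨r0, h0⟩ := Filter.eventually_atTop.1 h2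
  refine ⟨max r0 1, fun r hr => ?_⟩
  have h3 := h0 r ((le_max_left _ _).trans hr)
  have hr1 : (0 : ℝ) < r := by exact_mod_cast (show 0 < r from lt_of_lt_of_le one_pos ((le_max_right _ _).trans hr))
  simp only [Function.comp_apply] at h3
  rwa [div_le_iff₀ (Real.rpow_pos_of_pos hr1 _)] at h3

private theorem ev_exp (c η : ℝ) (hc : 0 < c) (hη : 0 < η) : ∃ r0 : ℕ, ∀ r : ℕ, r0 ≤ r → 2 * Real.exp (-(c * (r : ℝ) ^ (1 / 8 : ℝ))) ≤ η := by
  have h1 : Filter.Tendsto (fun r : ℕ => c * (r : ℝ) ^ (1 / 8 : ℝ)) Filter.atTop Filter.atTop :=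
    Filter.Tendsto.const_mul_atTop hc ((tendsto_rpow_atTop (by norm_num)).comp tendsto_natCast_atTop_atTop)
  have h2 := (Real.tendsto_exp_neg_atTop_nhds_zero.comp h1).eventually_le_const (show (0 : ℝ) < η / 2 by positivity)
  obtain ⟨r0, h0⟩ := Filter.eventually_atTop.1 h2
  refine ⟨r0, fun r hr => ?_⟩
  have := h0 r hr
  simp only [Function.comp_apply] at this
  linarith

private theorem ev_card : ∃ r0 : ℕ, ∀ r : ℕ, r0 ≤ r → ∀ n : ℕ, 2 ^ (r / 8) ≤ 2 * n → 16 ≤ n ∧ (r : ℝ) / 16 ≤ Real.log n := by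
  refine ⟨200, fun r hr n hn => ?_⟩
  have h1 : 5 ≤ r / 8 := by omega
  have h2 : 2 ^ (r / 8 - 1) ≤ n := by
    have h3 : 2 ^ (r / 8) = 2 * 2 ^ (r / 8 - 1) := by
      rw [← pow_succ', Nat.sub_add_cancel (by omega)]
    omega
  constructor
  · calc 16 = 2 ^ 4 := by norm_num
      _ ≤ 2 ^ (r / 8 - 1) := Nat.pow_le_pow_right (by norm_num) (by omega)
      _ ≤ n := h2
  · have h4 : ((2 ^ (r / 8 - 1) : ℕ) : ℝ) ≤ n := by exact_mod_cast h2
    have h5 : Real.log ((2 ^ (r / 8 - 1) : ℕ) : ℝ) ≤ Real.log n := Real.log_le_log (by positivity) h4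
    rw [Nat.cast_pow, Real.log_pow] at h5
    refine le_trans ?_ h5
    have h6 := Real.log_two_gt_d9
    have h7 : (r : ℝ) / 8 - 2 ≤ ((r / 8 - 1 : ℕ) : ℝ) := by
      have h8 : r < 8 * (r / 8) + 8 := by omega
      have h9 : ((r / 8 - 1 : ℕ) : ℝ) = ((r / 8 : ℕ) : ℝ) - 1 := by
        rw [Nat.cast_sub (by omega)]
        norm_num
      rw [h9]
      have h10 : (r : ℝ) < 8 * ((r / 8 : ℕ) : ℝ) + 8 := by exact_mod_cast h8
      linarith
    have h11 : (200 : ℝ) ≤ r := by exact_mod_cast hr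
    have h12 : ((2 : ℕ) : ℝ) = 2 := by norm_num
    rw [h12]
    nlinarith

theorem rot_sq_le (x a b : ℝ) : (Real.cos x * a - Real.sin x * b) ^ 2 ≤ a ^ 2 + b ^ 2 := by
  have h := Real.sin_sq_add_cos_sq x
  have h2 : a ^ 2 + b ^ 2 - (Real.cos x * a - Real.sin x * b) ^ 2 = (Real.sin x * a + Real.cos x * b) ^ 2 := by
    have : a ^ 2 + b ^ 2 = (Real.sin x ^ 2 + Real.cos x ^ 2) * (a ^ 2 + b ^ 2) := by rw [h, one_mul]
    rw [this]
    ring
  nlinarith [sq_nonneg (Real.sin x * a + Real.cos x * b)]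

theorem abs_rot_le (x a b : ℝ) : |Real.cos x * a - Real.sin x * b| ≤ |a| + |b| := by
  calc |Real.cos x * a - Real.sin x * b| ≤ |Real.cos x * a| + |Real.sin x * b| := abs_sub _ _
    _ ≤ 1 * |a| + 1 * |b| := by
        rw [abs_mul, abs_mul]
        gcongr
        · exact Real.abs_cos_le_one x
        · exact Real.abs_sin_le_one x
    _ = |a| + |b| := by ring

/-- one scale, given the separation -/
theorem d2 (hC : StmtC) (hZ : StmtZ) (K : Ker) (C1 c A δ η : ℝ) (hC1 : 0 < C1) (hc : 0 < c) (hA0 : 0 < A) (hδ : 0 < δ)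
    (hδ2 : δ ≤ 1 / 16) (hη : 0 < η) : ∃ r0 : ℕ, ∀ r : ℕ, r0 ≤ r → ∀ (h : ℕ → ℂ) (D : ℝ → ℂ), AdmC r h D (A * 2 ^ r) →
    ∀ (Δ τ : ℕ) (J : Finset ℕ), J ⊆ Finset.range (2 ^ (r / 8)) → 2 ^ (r / 8) ≤ 2 * J.card →
    (∀ i ∈ J, ((τ + i * Δ : ℕ) : ℝ) ≤ 1 / sr r ∧
      RC K r (fun n => (h n).re) (Ur r + (τ + i * Δ : ℕ)) ^ 2 ≤ C1 * sr r * (A * 2 ^ r)) →
    ∀ th : ℕ → ℝ,
    (∀ i ∈ J, ∀ j ∈ J, i ≠ j → c * (r : ℝ) ^ (-(1 / 2) - δ) ≤
      ∑ p ∈ BL r, (bC K r h th (Ur r + (τ + i * Δ : ℕ)) p - bC K r h th (Ur r + (τ + j * Δ : ℕ)) p) ^ 2) →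
    pr (BL r) (fun T1 => ∀ n ∈ Finset.Icc (Y r) (Y (r + 1)),
      (Hc h n + ∑ p ∈ BL r, fp th T1 p * Hc h (n / p)).re ≤ (r : ℝ) ^ (1 / 4 - δ) * Real.sqrt n) ≤ η := by
  obtain ⟨C2, hC2, r2, hsq⟩ := a_sq K
  obtain ⟨r4, hsmall⟩ := a_small K
  obtain ⟨C5, hC5, r5, hZ⟩ := hZ K
  obtain ⟨m1, hm1, m2, hm2, hmax⟩ := maxlow
  obtain ⟨r7, hcard⟩ := ev_card
  obtain ⟨r10, hE6⟩ := ev_log_small (1 / 4) 1 (by norm_num) (by norm_num)
  obtain ⟨r11, hE4⟩ := ev_rpow_small (-(δ / 2)) (m1 * (Real.sqrt c / 4) / (C5 + Real.sqrt (80 * C1 * A))) (by linarith) (by positivity)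
  obtain ⟨r12, hE3⟩ := pow_le_Vr 2 (m1 * (Real.sqrt c / 2)) (by positivity) 2 (by norm_num)
  obtain ⟨r13, hE5⟩ := ev_exp (m2 * (Real.sqrt c / 4) / Real.sqrt (4 * C2 * A)) η (by positivity) hη
  refine ⟨r2 + r4 + r5 + r7 + r10 + r11 + r12 + r13 + 4, fun r hr h D hAd Δ τ J hJ hJc hJp th hsep => ?_⟩
  have hr0 : 2 ≤ r := by omega
  have hx : (1 : ℝ) ≤ r := by exact_mod_cast (show 1 ≤ r by omega)
  have hx0 : (0 : ℝ) < r := by linarith
  have hV := Vr_pos r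
  have hV2 := le_Vr r
  have h2r : (0 : ℝ) < 2 ^ r := by positivity
  obtain ⟨hc16, hclog⟩ := hcard r (by omega) J.card hJc
  obtain ⟨hAR, hAI⟩ := hC r h D _ hAd
  -- the parameters
  set d2 : ℝ := c * (r : ℝ) ^ (-(1 / 2) - δ) with hd2
  have hd20 : 0 < d2 := by positivity
  set v : ℝ := 4 * C2 * A with hv
  have hv0 : 0 < v := by positivity
  have hDs : Real.sqrt d2 ^ 2 = d2 := Real.sq_sqrt hd20.le
  have hD0 : 0 < Real.sqrt d2 := Real.sqrt_pos.2 hd20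
  have hDval : Real.sqrt d2 = Real.sqrt c * (r : ℝ) ^ (-(1 / 4) - δ / 2) := by
    rw [hd2, Real.sqrt_mul (by positivity), Real.sqrt_eq_rpow ((r : ℝ) ^ _), ← Real.rpow_mul hx0.le]
    congr 2
    ring
  have hα : ∀ i ∈ J, (0 : ℝ) ≤ ((τ + i * Δ : ℕ) : ℝ) ∧ ((τ + i * Δ : ℕ) : ℝ) ≤ 1 / sr r := fun i hi =>
    ⟨Nat.cast_nonneg _, (hJp i hi).1⟩
  have hlogN : Real.log J.card ≤ r := by
    have h1 : (J.card : ℝ) ≤ 2 ^ (r / 8) := by
      have := Finset.card_le_card hJ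
      rw [Finset.card_range] at this
      exact_mod_cast this
    have h2 : (0 : ℝ) < J.card := by
      have : 0 < J.card := by omega
      exact_mod_cast this
    calc Real.log J.card ≤ Real.log (2 ^ (r / 8)) := Real.log_le_log h2 h1
      _ = (r / 8 : ℕ) * Real.log 2 := Real.log_pow _ _
      _ ≤ r * 1 := by
          apply mul_le_mul
          · exact_mod_cast Nat.div_le_self r 8
          · linarith [Real.log_two_lt_d9]
          · exact Real.log_nonneg (by norm_num)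
          · exact hx0.le
      _ = r := mul_one _
  -- separation
  have hsep2 : ∀ i ∈ J, ∀ j ∈ J, i ≠ j → Real.sqrt d2 ^ 2 ≤
      ∑ p ∈ BL r, (bC K r h th (Ur r + (τ + i * Δ : ℕ)) p - bC K r h th (Ur r + (τ + j * Δ : ℕ)) p) ^ 2 := by
    intro i hi j hj hij
    rw [hDs]
    exact hsep i hi j hj hij
  have hvar : ∀ i ∈ J, ∑ p ∈ BL r, bC K r h th (Ur r + (τ + i * Δ : ℕ)) p ^ 2 ≤ v := fun i hi => by
    have h1 := hsq r (by omega) _ _ _ hAR _ (hα i hi).1 (hα i hi).2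
    have h2 := hsq r (by omega) _ _ _ hAI _ (hα i hi).1 (hα i hi).2
    have h3 : C2 * (A * 2 ^ r) / Vr r ≤ 2 * C2 * A := by
      rw [div_le_iff₀ hV]
      calc C2 * (A * 2 ^ r) = 2 * C2 * A * (2 ^ r / 2) := by ring
        _ ≤ 2 * C2 * A * Vr r := by gcongr
    calc ∑ p ∈ BL r, bC K r h th (Ur r + (τ + i * Δ : ℕ)) p ^ 2
        ≤ ∑ p ∈ BL r, (aC K r (fun n => (h n).re) (Ur r + (τ + i * Δ : ℕ)) p ^ 2 +
            aC K r (fun n => (h n).im) (Ur r + (τ + i * Δ : ℕ)) p ^ 2) := Finset.sum_le_sum fun p _ => rot_sq_le _ _ _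
      _ ≤ v := by
          rw [Finset.sum_add_distrib, hv]
          linarith
  have hsm : ∀ i ∈ J, ∀ p ∈ BL r, |bC K r h th (Ur r + (τ + i * Δ : ℕ)) p| * Real.sqrt (Real.log J.card) ≤ m1 * Real.sqrt d2 := by
    intro i hi p hp
    have h1a := hsmall r (by omega) _ hAR.le_one _ (hα i hi).1 (hα i hi).2 p hp
    have h1b := hsmall r (by omega) _ hAI.le_one _ (hα i hi).1 (hα i hi).2 p hp
    have h1 : |bC K r h th (Ur r + (τ + i * Δ : ℕ)) p| ≤ 2 / Vr r ^ 2 := by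
      refine (abs_rot_le _ _ _).trans ?_
      calc _ ≤ 1 / Vr r ^ 2 + 1 / Vr r ^ 2 := add_le_add h1a h1b
        _ = 2 / Vr r ^ 2 := by ring
    have h2 : Real.sqrt (Real.log J.card) ≤ r := by
      calc Real.sqrt (Real.log J.card) ≤ Real.sqrt r := Real.sqrt_le_sqrt hlogN
        _ ≤ r := by
            rw [Real.sqrt_le_left hx0.le]
            nlinarith
    have h3 := hE3 r (by omega)
    have h9 : (r : ℝ) ^ (-1 : ℝ) ≤ (r : ℝ) ^ (-(1 / 4) - δ / 2) := Real.rpow_le_rpow_of_exponent_le hx (by linarith)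
    rw [Real.rpow_neg_one] at h9
    rw [hDval]
    calc |bC K r h th (Ur r + (τ + i * Δ : ℕ)) p| * Real.sqrt (Real.log J.card) ≤ 2 / Vr r ^ 2 * r :=
          mul_le_mul h1 h2 (Real.sqrt_nonneg _) (by positivity)
      _ ≤ m1 * (Real.sqrt c * (r : ℝ)⁻¹) := by
          rw [div_mul_eq_mul_div, div_le_iff₀ (by positivity)]
          have h11 : (r : ℝ) ^ 2 ≤ m1 * (Real.sqrt c / 2) * Vr r ^ 2 := h3
          calc 2 * (r : ℝ) = 2 * (r : ℝ) ^ 2 * (r : ℝ)⁻¹ := by field_simp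
            _ ≤ 2 * (m1 * (Real.sqrt c / 2) * Vr r ^ 2) * (r : ℝ)⁻¹ := by gcongr
            _ = _ := by ring
      _ ≤ _ := by gcongr
  have hfin := hmax (BL r) J (fun i p => bC K r h th (Ur r + (τ + i * Δ : ℕ)) p) (Real.sqrt d2) v hD0 hv0 hc16 hsep2 hvar hsm
  have hlogsq : Real.sqrt r / 4 ≤ Real.sqrt (Real.log J.card) := by
    have : Real.sqrt r / 4 = Real.sqrt (r / 16) := by
      rw [Real.sqrt_div hx0.le, show (16 : ℝ) = 4 ^ 2 by norm_num, Real.sqrt_sq (by norm_num)]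
    rw [this]
    exact Real.sqrt_le_sqrt hclog
  have hkey : Real.sqrt c / 4 * (r : ℝ) ^ (1 / 4 - δ / 2) ≤ Real.sqrt d2 * Real.sqrt (Real.log J.card) := by
    have h7 : (r : ℝ) ^ (-(1 / 4) - δ / 2) * Real.sqrt r = (r : ℝ) ^ (1 / 4 - δ / 2) := by
      rw [Real.sqrt_eq_rpow, ← Real.rpow_add hx0]
      congr 1
      ring
    rw [← h7, hDval]
    calc Real.sqrt c / 4 * ((r : ℝ) ^ (-(1 / 4) - δ / 2) * Real.sqrt r) =
          Real.sqrt c * (r : ℝ) ^ (-(1 / 4) - δ / 2) * (Real.sqrt r / 4) := by ring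
      _ ≤ _ := by gcongr
  refine le_trans (pr_mono ?_) (hfin.trans ?_)
  · intro T hT hbad i hi
    have h1 := hZ r (by omega) h th T ((r : ℝ) ^ (1 / 4 - δ)) (by positivity) hbad _ (hα i hi).1 (hα i hi).2
    have h2 := (hJp i hi).2
    have h3 : |RC K r (fun n => (h n).re) (Ur r + (τ + i * Δ : ℕ))| ≤ Real.sqrt (80 * C1 * A) * (r : ℝ) ^ (1 / 8 : ℝ) := by
      have h4 : C1 * sr r * (A * 2 ^ r) ≤ 80 * C1 * A * (r : ℝ) ^ (1 / 4 : ℝ) := by
        have h5 := hE6 r (by omega)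
        rw [one_mul] at h5
        have h6 : sr r * 2 ^ r ≤ 80 * Real.log r := by
          unfold sr
          rw [div_mul_eq_mul_div, div_le_iff₀ hV]
          have h7 : 0 ≤ Real.log r := Real.log_nonneg hx
          calc 40 * Real.log r * 2 ^ r = 80 * Real.log r * (2 ^ r / 2) := by ring
            _ ≤ 80 * Real.log r * Vr r := by gcongr
        calc C1 * sr r * (A * 2 ^ r) = C1 * A * (sr r * 2 ^ r) := by ring
          _ ≤ C1 * A * (80 * Real.log r) := by gcongr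
          _ ≤ C1 * A * (80 * (r : ℝ) ^ (1 / 4 : ℝ)) := by gcongr
          _ = _ := by ring
      rw [← Real.sqrt_sq_eq_abs]
      refine (Real.sqrt_le_sqrt (h2.trans h4)).trans (le_of_eq ?_)
      rw [Real.sqrt_mul (by positivity), Real.sqrt_eq_rpow ((r : ℝ) ^ _), ← Real.rpow_mul hx0.le]
      norm_num
    have h4 := (abs_le.1 h3).1
    have h5 : C5 * (r : ℝ) ^ (1 / 4 - δ) + Real.sqrt (80 * C1 * A) * (r : ℝ) ^ (1 / 8 : ℝ) ≤
        m1 * Real.sqrt d2 * Real.sqrt (Real.log J.card) := by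
      have h9 := hE4 r (by omega)
      have h10 : (r : ℝ) ^ (1 / 4 - δ) = (r : ℝ) ^ (-(δ / 2)) * (r : ℝ) ^ (1 / 4 - δ / 2) := by
        rw [← Real.rpow_add hx0]
        congr 1
        ring
      have h11 : (r : ℝ) ^ (1 / 8 : ℝ) ≤ (r : ℝ) ^ (1 / 4 - δ) := Real.rpow_le_rpow_of_exponent_le hx (by linarith)
      have h12 : 0 < C5 + Real.sqrt (80 * C1 * A) := by positivity
      calc C5 * (r : ℝ) ^ (1 / 4 - δ) + Real.sqrt (80 * C1 * A) * (r : ℝ) ^ (1 / 8 : ℝ)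
          ≤ C5 * (r : ℝ) ^ (1 / 4 - δ) + Real.sqrt (80 * C1 * A) * (r : ℝ) ^ (1 / 4 - δ) := by gcongr
        _ = (C5 + Real.sqrt (80 * C1 * A)) * (r : ℝ) ^ (-(δ / 2)) * (r : ℝ) ^ (1 / 4 - δ / 2) := by rw [h10]; ring
        _ ≤ (C5 + Real.sqrt (80 * C1 * A)) * (m1 * (Real.sqrt c / 4) / (C5 + Real.sqrt (80 * C1 * A))) *
              (r : ℝ) ^ (1 / 4 - δ / 2) := by gcongr
        _ = m1 * (Real.sqrt c / 4 * (r : ℝ) ^ (1 / 4 - δ / 2)) := by field_simp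
        _ ≤ m1 * (Real.sqrt d2 * Real.sqrt (Real.log J.card)) := by gcongr
        _ = _ := by ring
    have h6 : ∑ p ∈ BL r, sg T p * (Real.cos (th p) * aC K r (fun n => (h n).re) (Ur r + (τ + i * Δ : ℕ)) p -
        Real.sin (th p) * aC K r (fun n => (h n).im) (Ur r + (τ + i * Δ : ℕ)) p) =
        ∑ p ∈ BL r, sg T p * bC K r h th (Ur r + (τ + i * Δ : ℕ)) p := rfl
    rw [h6] at h1
    linarith
  · -- the exponent
    refine le_trans ?_ (hE5 r (by omega))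
    apply mul_le_mul_of_nonneg_left _ (by norm_num)
    apply Real.exp_le_exp.2
    apply neg_le_neg
    rw [le_div_iff₀ (Real.sqrt_pos.2 hv0)]
    have h9 : (r : ℝ) ^ (1 / 8 : ℝ) ≤ (r : ℝ) ^ (1 / 4 - δ / 2) := Real.rpow_le_rpow_of_exponent_le hx (by linarith)
    have h10 : 0 < Real.sqrt v := Real.sqrt_pos.2 hv0
    calc m2 * (Real.sqrt c / 4) / Real.sqrt v * (r : ℝ) ^ (1 / 8 : ℝ) * Real.sqrt v
        = m2 * (Real.sqrt c / 4 * (r : ℝ) ^ (1 / 8 : ℝ)) := by field_simp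
      _ ≤ m2 * (Real.sqrt c / 4 * (r : ℝ) ^ (1 / 4 - δ / 2)) := by gcongr
      _ ≤ m2 * (Real.sqrt d2 * Real.sqrt (Real.log J.card)) := by gcongr
      _ = _ := by ring

end Pool.Agent.IT
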