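import Mathlib

/-!
# Littlewood's bound under the Riemann hypothesis, part 1: logarithms and three circles
-/

set_option autoImplicit false

namespace Pool.Agent.Helper66.IT

open Complex Metric Set

/-- a holomorphic function without zeros on a disc has a logarithm -/
theorem exists_log_ball {F : ℂ → ℂ} {R : ℝ} (hR : 0 < R) (hF : DifferentiableOn ℂ F (ball 0 R))
    (hne : ∀ z ∈ ball (0 : ℂ) R, F z ≠ 0) :
    ∃ G : ℂ → ℂ, DifferentiableOn ℂ G (ball 0 R) ∧ G 0 = 0 ∧ ∀ z ∈ ball (0 : ℂ) R, F z = F 0 * exp (G z) := by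
  have hd : DifferentiableOn ℂ (fun z => deriv F z / F z) (ball 0 R) := (hF.deriv isOpen_ball).div hF hne
  obtain ⟨G, hG0, hG⟩ := hd.isExactOn_ball.with_val_at 0 0
  have hGd : DifferentiableOn ℂ G (ball 0 R) := fun z hz => (hG z hz).differentiableAt.differentiableWithinAt
  refine ⟨G, hGd, hG0, fun z hz => ?_⟩
  have h0 : (0 : ℂ) ∈ ball (0 : ℂ) R := mem_ball_self hR
  have hder : ∀ w ∈ ball (0 : ℂ) R, HasDerivAt (fun w => F w * exp (-G w)) 0 w := by
    intro w hw
    have h1 : HasDerivAt F (deriv F w) w := ((hF w hw).differentiableAt (isOpen_ball.mem_nhds hw)).hasDerivAt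
    have h2 := h1.mul ((hG w hw).neg.cexp)
    have h3 := hne w hw
    have h4 : F w * (deriv F w / F w) = deriv F w := by
      field_simp
    have h5 : deriv F w * exp (-G w) + F w * (exp (-G w) * -(deriv F w / F w)) = 0 := by
      linear_combination (-exp (-G w)) * h4
    have h6 : HasDerivAt (fun w => F w * exp (-G w)) (deriv F w * exp (-G w) + F w * (exp (-G w) * -(deriv F w / F w))) w := h2
    rwa [h5] at h6
  have h1 : F z * exp (-G z) = F 0 * exp (-G 0) := by
    have := (convex_ball (0 : ℂ) R).norm_image_sub_le_of_norm_hasDerivWithin_le (f := fun w => F w * exp (-G w))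
      (f' := fun _ => 0) (C := 0) (fun w hw => (hder w hw).hasDerivWithinAt) (fun w _ => by simp) h0 hz
    rw [zero_mul, norm_le_zero_iff, sub_eq_zero] at this
    exact this
  rw [hG0, neg_zero, exp_zero, mul_one] at h1
  rw [← h1, mul_assoc, ← exp_add, neg_add_cancel, exp_zero, mul_one]

/-- Hadamard's three circles theorem -/
theorem three_circles {G : ℂ → ℂ} {R r1 r3 a b : ℝ} (h1 : 0 < r1) (h13 : r1 < r3) (h3 : r3 < R)
    (hG : DifferentiableOn ℂ G (ball 0 R)) (ha : ∀ z : ℂ, ‖z‖ = r1 → ‖G z‖ ≤ a) (hb : ∀ z : ℂ, ‖z‖ = r3 → ‖G z‖ ≤ b)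
    {z : ℂ} (hz1 : r1 ≤ ‖z‖) (hz3 : ‖z‖ ≤ r3) :
    ‖G z‖ ≤ a ^ (1 - (Real.log ‖z‖ - Real.log r1) / (Real.log r3 - Real.log r1)) *
      b ^ ((Real.log ‖z‖ - Real.log r1) / (Real.log r3 - Real.log r1)) := by
  have hr3 : 0 < r3 := h1.trans h13
  have hz0 : 0 < ‖z‖ := h1.trans_le hz1
  have hzne : z ≠ 0 := norm_pos_iff.1 hz0
  have hul : Real.log r1 < Real.log r3 := Real.log_lt_log h1 h13
  have hexp : ∀ w : ℂ, ‖exp w‖ = Real.exp w.re := fun w => norm_exp w
  have hmem : ∀ w : ℂ, w.re ≤ Real.log r3 → exp w ∈ closedBall (0 : ℂ) r3 := by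
    intro w hw
    rw [mem_closedBall_zero_iff, hexp, ← Real.le_log_iff_exp_le hr3]
    exact hw
  have hsub : closedBall (0 : ℂ) r3 ⊆ ball 0 R := closedBall_subset_ball h3
  have hdiff : ∀ w : ℂ, w.re ≤ Real.log r3 → DifferentiableAt ℂ (fun w => G (exp w)) w := by
    intro w hw
    have h5 : DifferentiableAt ℂ G (exp w) := (hG _ (hsub (hmem w hw))).differentiableAt (isOpen_ball.mem_nhds (hsub (hmem w hw)))
    exact h5.comp w differentiable_exp.differentiableAt
  have hd : DiffContOnCl ℂ (fun w => G (exp w)) (HadamardThreeLines.verticalStrip (Real.log r1) (Real.log r3)) := by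
    constructor
    · intro w hw
      have hw2 : w.re ∈ Ioo (Real.log r1) (Real.log r3) := hw
      exact (hdiff w hw2.2.le).differentiableWithinAt
    · intro w hw
      have hw2 : w.re ≤ Real.log r3 := by
        have hcl : IsClosed {w : ℂ | w.re ≤ Real.log r3} := isClosed_le continuous_re continuous_const
        have : closure (HadamardThreeLines.verticalStrip (Real.log r1) (Real.log r3)) ⊆ {w : ℂ | w.re ≤ Real.log r3} := by
          apply closure_minimal _ hcl
          intro v hv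
          have hv2 : v.re ∈ Ioo (Real.log r1) (Real.log r3) := hv
          exact hv2.2.le
        exact this hw
      exact (hdiff w hw2).continuousAt.continuousWithinAt
  have hB : BddAbove ((norm ∘ fun w => G (exp w)) '' HadamardThreeLines.verticalClosedStrip (Real.log r1) (Real.log r3)) := by
    obtain ⟨C, hC⟩ := (isCompact_closedBall (0 : ℂ) r3).exists_bound_of_continuousOn (hG.continuousOn.mono hsub)
    refine ⟨C, ?_⟩
    rintro _ ⟨w, hw, rfl⟩
    have hw2 : w.re ∈ Icc (Real.log r1) (Real.log r3) := hw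
    exact hC _ (hmem w hw2.2)
  have hlog : exp (log z) = z := exp_log hzne
  have hlr : (log z).re = Real.log ‖z‖ := log_re z
  have hmain := HadamardThreeLines.norm_le_interp_of_mem_verticalClosedStrip' (f := fun w => G (exp w)) (z := log z)
    (a := a) (b := b) hul (by
      show (log z).re ∈ Icc (Real.log r1) (Real.log r3)
      rw [hlr]
      exact ⟨Real.log_le_log h1 hz1, Real.log_le_log hz0 hz3⟩) hd hB
    (fun w hw => by
      have hw2 : w.re = Real.log r1 := hw
      apply ha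
      rw [hexp, hw2, Real.exp_log h1])
    (fun w hw => by
      have hw2 : w.re = Real.log r3 := hw
      apply hb
      rw [hexp, hw2, Real.exp_log hr3])
  simp only [hlog, hlr] at hmain
  exact hmain

/-- the bound for the logarithm in a disc, from two applications of the Borel-Caratheodory theorem and three circles -/
theorem log_bound {δ : ℝ} (hδ : 0 < δ) (hδ2 : δ < 1 / 4) : ∃ e : ℝ, 0 < e ∧ e < 1 ∧ ∀ (G : ℂ → ℂ) (M1 M : ℝ),
    1 ≤ M1 → 1 ≤ M → DifferentiableOn ℂ G (ball 0 (3 / 2)) → G 0 = 0 → (∀ z ∈ ball (0 : ℂ) (3 / 4), (G z).re ≤ M1) →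
    (∀ z ∈ ball (0 : ℂ) (3 / 2), (G z).re ≤ M) → ∀ z : ℂ, ‖z‖ ≤ 3 / 2 - 2 * δ →
    ‖G z‖ ≤ 4 * M1 * (3 / δ * M) ^ e := by
  have hr1 : (0 : ℝ) < 1 / 2 := by norm_num
  have hl1 : Real.log (1 / 2) < Real.log (3 / 2 - 2 * δ) := Real.log_lt_log (by norm_num) (by linarith)
  have hl2 : Real.log (3 / 2 - 2 * δ) < Real.log (3 / 2 - δ) := Real.log_lt_log (by linarith) (by linarith)
  set e : ℝ := (Real.log (3 / 2 - 2 * δ) - Real.log (1 / 2)) / (Real.log (3 / 2 - δ) - Real.log (1 / 2)) with he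
  have he0 : 0 < e := div_pos (by linarith) (by linarith)
  have he1 : e < 1 := by
    rw [he, div_lt_one (by linarith)]
    linarith
  refine ⟨e, he0, he1, fun G M1 M hM1 hM hG hG0 hin hout z hz => ?_⟩
  have hin2 : ∀ z : ℂ, ‖z‖ ≤ 1 / 2 → ‖G z‖ ≤ 4 * M1 := by
    intro z hz
    have h1 := borelCaratheodory_zero (f := G) (M := M1) (R := 3 / 4) (z := z) (by linarith)
      (hG.mono (ball_subset_ball (by norm_num))) (fun w hw => hin w hw) (by norm_num)
      (mem_ball_zero_iff.2 (by linarith)) hG0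
    refine h1.trans ?_
    rw [div_le_iff₀ (by linarith)]
    nlinarith [norm_nonneg z]
  have hout2 : ∀ z : ℂ, ‖z‖ ≤ 3 / 2 - δ → ‖G z‖ ≤ 3 / δ * M := by
    intro z hz
    have h1 := borelCaratheodory_zero (f := G) (M := M) (R := 3 / 2) (z := z) (by linarith)
      hG (fun w hw => hout w hw) (by norm_num) (mem_ball_zero_iff.2 (by linarith)) hG0
    refine h1.trans ?_
    calc 2 * M * ‖z‖ / (3 / 2 - ‖z‖) ≤ 2 * M * (3 / 2) / δ := by
          apply div_le_div₀ (by positivity) _ hδ (by linarith)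
          nlinarith [norm_nonneg z]
      _ = 3 / δ * M := by ring
  have hM3 : 1 ≤ 3 / δ * M := by
    have h1 : 1 ≤ 3 / δ := by
      rw [le_div_iff₀ hδ]
      linarith
    nlinarith
  have hpow1 : 1 ≤ (3 / δ * M) ^ e := Real.one_le_rpow hM3 he0.le
  rcases le_total ‖z‖ (1 / 2) with h | h
  · calc ‖G z‖ ≤ 4 * M1 := hin2 z h
      _ = 4 * M1 * 1 := (mul_one _).symm
      _ ≤ 4 * M1 * (3 / δ * M) ^ e := by gcongr
  · have h4 := three_circles (R := 3 / 2) (r1 := 1 / 2) (r3 := 3 / 2 - δ) (a := 4 * M1) (b := 3 / δ * M) hr1 (by linarith)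
      (by linarith) hG (fun w hw => hin2 w hw.le) (fun w hw => hout2 w hw.le) h (by linarith)
    set f : ℝ := (Real.log ‖z‖ - Real.log (1 / 2)) / (Real.log (3 / 2 - δ) - Real.log (1 / 2)) with hf
    have hf0 : 0 ≤ f := div_nonneg (by
      have := Real.log_le_log hr1 h
      linarith) (by linarith)
    have hfe : f ≤ e := by
      rw [hf, he]
      apply div_le_div_of_nonneg_right _ (by linarith)
      have := Real.log_le_log (by linarith) hz
      linarith
    refine h4.trans ?_
    apply mul_le_mul _ (Real.rpow_le_rpow_of_exponent_le hM3 hfe) (by positivity) (by positivity)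
    calc (4 * M1) ^ (1 - f) ≤ (4 * M1) ^ (1 : ℝ) := Real.rpow_le_rpow_of_exponent_le (by linarith) (by linarith)
      _ = 4 * M1 := Real.rpow_one _

end Pool.Agent.Helper66.IT
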