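import Pool.Agent.Helper66.IT.LI
import Pool.Agent.Helper95.IT.Stmts

/-!
# Project IT: the quotient `ζ(2s)/ζ(s)` on `Re s = c`, pointwise, under the Riemann hypothesis
-/

set_option autoImplicit false

namespace Pool.Agent.Helper66.IT

open MeasureTheory Pool.Agent.Helper95.IT

theorem zeta_line (hRH : ∀ s : ℂ, 1 / 2 < s.re → s ≠ 1 → riemannZeta s ≠ 0) {σ : ℝ} (hσ : 1 / 2 < σ) (hσ1 : σ ≠ 1) {η : ℝ}
    (hη : 0 < η) : ∃ C : ℝ, 0 < C ∧ ∀ y : ℝ, ‖riemannZeta ((σ : ℂ) + Complex.I * (y : ℂ))‖ ≤ C * (1 + |y|) ^ η ∧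
      ‖(riemannZeta ((σ : ℂ) + Complex.I * (y : ℂ)))⁻¹‖ ≤ C * (1 + |y|) ^ η := by
  obtain ⟨C, hC, h⟩ := littlewood hRH (σ - 1 / 2) η (by linarith) hη
  have hre : ∀ y : ℝ, ((σ : ℂ) + Complex.I * (y : ℂ)).re = σ := fun y => by simp
  have him : ∀ y : ℝ, ((σ : ℂ) + Complex.I * (y : ℂ)).im = y := fun y => by simp
  have hne : ∀ y : ℝ, (σ : ℂ) + Complex.I * (y : ℂ) ≠ 1 := fun y hy => by
    have := congrArg Complex.re hy
    rw [hre, Complex.one_re] at this
    exact hσ1 this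
  have hc : Continuous fun y : ℝ => (σ : ℂ) + Complex.I * (y : ℂ) := by fun_prop
  have hc1 : Continuous fun y : ℝ => riemannZeta ((σ : ℂ) + Complex.I * (y : ℂ)) := by
    rw [continuous_iff_continuousAt]
    intro y
    exact ContinuousAt.comp (f := fun y : ℝ => (σ : ℂ) + Complex.I * (y : ℂ)) (differentiableAt_riemannZeta (hne y)).continuousAt hc.continuousAt
  have hc2 : Continuous fun y : ℝ => (riemannZeta ((σ : ℂ) + Complex.I * (y : ℂ)))⁻¹ :=
    hc1.inv₀ fun y => hRH _ (by rw [hre]; exact hσ) (hne y)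
  obtain ⟨C1, hC1⟩ := (isCompact_Icc (a := (-1 : ℝ)) (b := 1)).exists_bound_of_continuousOn hc1.continuousOn
  obtain ⟨C2, hC2⟩ := (isCompact_Icc (a := (-1 : ℝ)) (b := 1)).exists_bound_of_continuousOn hc2.continuousOn
  refine ⟨C + |C1| + |C2|, by positivity, fun y => ?_⟩
  have hp1 : 1 ≤ (1 + |y|) ^ η := Real.one_le_rpow (by linarith [abs_nonneg y]) hη.le
  rcases le_total |y| 1 with h1 | h1
  · have hy : y ∈ Set.Icc (-1 : ℝ) 1 := ⟨(abs_le.1 h1).1, (abs_le.1 h1).2⟩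
    constructor
    · calc _ ≤ C1 := hC1 y hy
        _ ≤ |C1| * 1 := by linarith [le_abs_self C1]
        _ ≤ (C + |C1| + |C2|) * (1 + |y|) ^ η := by
            apply mul_le_mul _ hp1 zero_le_one (by positivity)
            linarith [abs_nonneg C2]
    · calc _ ≤ C2 := hC2 y hy
        _ ≤ |C2| * 1 := by linarith [le_abs_self C2]
        _ ≤ (C + |C1| + |C2|) * (1 + |y|) ^ η := by
            apply mul_le_mul _ hp1 zero_le_one (by positivity)
            linarith [abs_nonneg C1]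
  · obtain ⟨h2, h3⟩ := h ((σ : ℂ) + Complex.I * (y : ℂ)) (by rw [hre]; linarith) (by rw [him]; exact h1)
    rw [him] at h2 h3
    have h4 : C * |y| ^ η ≤ (C + |C1| + |C2|) * (1 + |y|) ^ η := by
      apply mul_le_mul _ _ (by positivity) (by positivity)
      · linarith [abs_nonneg C1, abs_nonneg C2]
      · exact Real.rpow_le_rpow (abs_nonneg y) (by linarith) hη.le
    exact ⟨h2.trans h4, h3.trans h4⟩

/-- the quotient on the line `Re s = c`, pointwise -/
theorem fe_pt (hFE : StmtFE) (hRH : ∀ s : ℂ, 1 / 2 < s.re → s ≠ 1 → riemannZeta s ≠ 0) (c η : ℝ) (hc : 0 < c) (hc4 : c < 1 / 4)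
    (hη : 0 < η) : ∃ C : ℝ, 0 < C ∧ ∀ v : ℝ,
      ‖riemannZeta (2 * pt c v) / riemannZeta (pt c v)‖ ≤ C * (1 + |v|) ^ (-c + η) := by
  obtain ⟨C0, hC0, h0⟩ := hFE c hc hc4
  obtain ⟨C1, hC1, h1⟩ := zeta_line hRH (σ := 1 - 2 * c) (by linarith) (by linarith) (η := η / 2) (by positivity)
  obtain ⟨C2, hC2, h2⟩ := zeta_line hRH (σ := 1 - c) (by linarith) (by linarith) (η := η / 2) (by positivity)
  refine ⟨C0 * (C1 * 2 ^ (η / 2)) * C2, by positivity, fun v => ?_⟩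
  have hv0 : 0 < 1 + |v| := by positivity
  by_cases hz : riemannZeta (pt c v) = 0
  · rw [hz, div_zero, norm_zero]
    positivity
  have e1 : 1 - 2 * pt c v = ((1 - 2 * c : ℝ) : ℂ) + Complex.I * ((-2 * v : ℝ) : ℂ) := by
    unfold pt
    push_cast
    ring
  have e2 : 1 - pt c v = ((1 - c : ℝ) : ℂ) + Complex.I * ((-v : ℝ) : ℂ) := by
    unfold pt
    push_cast
    ring
  have h3 := (h1 (-2 * v)).1
  have h4 := (h2 (-v)).2
  rw [← e1] at h3
  rw [← e2, abs_neg] at h4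
  have h5 : (1 + |-2 * v|) ^ (η / 2) ≤ 2 ^ (η / 2) * (1 + |v|) ^ (η / 2) := by
    rw [← Real.mul_rpow (by norm_num) hv0.le]
    apply Real.rpow_le_rpow (by positivity) _ (by positivity)
    rw [abs_mul, abs_neg, abs_two]
    linarith
  have h6 : ‖riemannZeta (1 - 2 * pt c v)‖ ≤ C1 * 2 ^ (η / 2) * (1 + |v|) ^ (η / 2) := by
    refine h3.trans ?_
    rw [mul_assoc]
    exact mul_le_mul_of_nonneg_left h5 hC1.le
  calc _ ≤ C0 * (1 + |v|) ^ (-c) * ‖riemannZeta (1 - 2 * pt c v)‖ * ‖(riemannZeta (1 - pt c v))⁻¹‖ := h0 v hz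
    _ ≤ C0 * (1 + |v|) ^ (-c) * (C1 * 2 ^ (η / 2) * (1 + |v|) ^ (η / 2)) * (C2 * (1 + |v|) ^ (η / 2)) := by gcongr
    _ = C0 * (C1 * 2 ^ (η / 2)) * C2 * ((1 + |v|) ^ (-c) * (1 + |v|) ^ (η / 2) * (1 + |v|) ^ (η / 2)) := by ring
    _ = C0 * (C1 * 2 ^ (η / 2)) * C2 * (1 + |v|) ^ (-c + η) := by
        rw [← Real.rpow_add hv0, ← Real.rpow_add hv0]
        congr 2
        ring

/-- Peetre's inequality and an integral uniform in `t` -/
theorem peetre_int {a : ℝ} (ha : 0 < a) (ha1 : a ≤ 1) : ∃ C : ℝ, 0 < C ∧ ∀ t : ℝ,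
    Integrable (fun v : ℝ => (1 + |v|) ^ (-a) * (1 + |v - t|)⁻¹) ∧
    ∫ v : ℝ, (1 + |v|) ^ (-a) * (1 + |v - t|)⁻¹ ≤ C * (1 + |t|) ^ (-(a / 3)) := by
  have hI : Integrable fun v : ℝ => (1 + |v|) ^ (-(1 + a / 3)) := by
    have h := integrable_one_add_norm (E := ℝ) (μ := volume) (r := 1 + a / 3) (by
      rw [Module.finrank_self]
      push_cast
      linarith)
    simpa [Real.norm_eq_abs] using h
  set K : ℝ := ∫ v : ℝ, (1 + |v|) ^ (-(1 + a / 3)) with hK
  have hK0 : 0 ≤ K := integral_nonneg fun v => by positivity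
  have hpt : ∀ t v : ℝ, (1 + |v|) ^ (-a) * (1 + |v - t|)⁻¹ ≤
      (1 + |t|) ^ (-(a / 3)) * ((1 + |v|) ^ (-(1 + a / 3)) + (1 + |v - t|) ^ (-(1 + a / 3))) := by
    intro t v
    set X : ℝ := 1 + |v| with hX
    set Y : ℝ := 1 + |v - t| with hY
    have hX1 : 1 ≤ X := by rw [hX]; linarith [abs_nonneg v]
    have hY1 : 1 ≤ Y := by rw [hY]; linarith [abs_nonneg (v - t)]
    have hX0 : 0 < X := by linarith
    have hY0 : 0 < Y := by linarith
    have ht : 1 + |t| ≤ X * Y := by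
      have h1 : |t| ≤ |v| + |v - t| := by
        have := abs_sub v (v - t)
        rwa [sub_sub_cancel] at this
      rw [hX, hY]
      nlinarith [mul_nonneg (abs_nonneg v) (abs_nonneg (v - t))]
    have ht0 : 0 < 1 + |t| := by positivity
    have h1 : (X * Y) ^ (-(a / 3)) ≤ (1 + |t|) ^ (-(a / 3)) :=
      Real.rpow_le_rpow_of_nonpos ht0 ht (by linarith)
    have h2 : X ^ (-a) * Y⁻¹ = (X * Y) ^ (-(a / 3)) * (X ^ (-(2 * a / 3)) * Y ^ (-(1 - a / 3))) := by
      rw [Real.mul_rpow hX0.le hY0.le, ← Real.rpow_neg_one Y]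
      calc X ^ (-a) * Y ^ (-1 : ℝ) = (X ^ (-(a / 3)) * X ^ (-(2 * a / 3))) * (Y ^ (-(a / 3)) * Y ^ (-(1 - a / 3))) := by
            rw [← Real.rpow_add hX0, ← Real.rpow_add hY0]
            congr 2 <;> ring
        _ = _ := by ring
    have h3 : X ^ (-(2 * a / 3)) * Y ^ (-(1 - a / 3)) ≤ X ^ (-(1 + a / 3)) + Y ^ (-(1 + a / 3)) := by
      rcases le_total X Y with h | h
      · have h4 : Y ^ (-(1 - a / 3)) ≤ X ^ (-(1 - a / 3)) := Real.rpow_le_rpow_of_nonpos hX0 h (by linarith)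
        calc X ^ (-(2 * a / 3)) * Y ^ (-(1 - a / 3)) ≤ X ^ (-(2 * a / 3)) * X ^ (-(1 - a / 3)) := by gcongr
          _ = X ^ (-(1 + a / 3)) := by
              rw [← Real.rpow_add hX0]
              congr 1
              ring
          _ ≤ _ := by
              have : 0 ≤ Y ^ (-(1 + a / 3)) := by positivity
              linarith
      · have h4 : X ^ (-(2 * a / 3)) ≤ Y ^ (-(2 * a / 3)) := Real.rpow_le_rpow_of_nonpos hY0 h (by linarith)
        calc X ^ (-(2 * a / 3)) * Y ^ (-(1 - a / 3)) ≤ Y ^ (-(2 * a / 3)) * Y ^ (-(1 - a / 3)) := by gcongr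
          _ = Y ^ (-(1 + a / 3)) := by
              rw [← Real.rpow_add hY0]
              congr 1
              ring
          _ ≤ _ := by
              have : 0 ≤ X ^ (-(1 + a / 3)) := by positivity
              linarith
    rw [h2]
    exact mul_le_mul h1 h3 (by positivity) (by positivity)
  refine ⟨2 * K + 1, by positivity, fun t => ?_⟩
  have hIt : Integrable fun v : ℝ => (1 + |v - t|) ^ (-(1 + a / 3)) := hI.comp_sub_right t
  have hIs : Integrable fun v : ℝ => (1 + |t|) ^ (-(a / 3)) * ((1 + |v|) ^ (-(1 + a / 3)) + (1 + |v - t|) ^ (-(1 + a / 3))) :=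
    (hI.add hIt).const_mul _
  have hmeas : AEStronglyMeasurable (fun v : ℝ => (1 + |v|) ^ (-a) * (1 + |v - t|)⁻¹) volume := by
    apply Continuous.aestronglyMeasurable
    apply Continuous.mul
    · exact Continuous.rpow_const (by fun_prop) fun v => Or.inl (by positivity)
    · exact Continuous.inv₀ (by fun_prop) fun v => by positivity
  have hint : Integrable (fun v : ℝ => (1 + |v|) ^ (-a) * (1 + |v - t|)⁻¹) := by
    refine hIs.mono' hmeas (Filter.Eventually.of_forall fun v => ?_)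
    rw [Real.norm_eq_abs, abs_of_nonneg (by positivity)]
    exact hpt t v
  refine ⟨hint, ?_⟩
  calc ∫ v : ℝ, (1 + |v|) ^ (-a) * (1 + |v - t|)⁻¹
      ≤ ∫ v : ℝ, (1 + |t|) ^ (-(a / 3)) * ((1 + |v|) ^ (-(1 + a / 3)) + (1 + |v - t|) ^ (-(1 + a / 3))) :=
        integral_mono hint hIs fun v => hpt t v
    _ = (1 + |t|) ^ (-(a / 3)) * (K + K) := by
        rw [integral_const_mul, integral_add hI hIt]
        congr 2
        rw [hK]
        exact integral_sub_right_eq_self (fun v : ℝ => (1 + |v|) ^ (-(1 + a / 3))) t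
    _ ≤ (2 * K + 1) * (1 + |t|) ^ (-(a / 3)) := by
        have : 0 ≤ (1 + |t|) ^ (-(a / 3)) := by positivity
        nlinarith

end Pool.Agent.Helper66.IT
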