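import Pool.Agent.Helper95.IT.Stmts

/-!
# Project IT: the remainder from its representation as a Fourier integral on `Re s = c`
-/

set_option autoImplicit false

namespace Pool.Agent.Helper66.IT

open MeasureTheory Pool.Agent.Helper95.IT

theorem rem_of_rep {f : ℝ → ℝ} {c : ℝ} (hc : 0 < c) (hc2 : c < 1 / 2) {G : ℝ → ℂ} (hG : Integrable G)
    (hf : ∀ u, 0 ≤ u → (f u : ℂ) = (1 / (2 * Real.pi) : ℝ) *
      ∫ v : ℝ, G v * Complex.exp ((((c - 1 / 2 : ℝ) : ℂ) + Complex.I * v) * u)) {t W : ℝ}
    (hI : Integrable (fun v : ℝ => ‖pt c v * G v‖ / ‖(c : ℂ) + Complex.I * ((v : ℂ) - (t : ℂ))‖))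
    (hW : ∫ v : ℝ, ‖pt c v * G v‖ / ‖(c : ℂ) + Complex.I * ((v : ℂ) - (t : ℂ))‖ ≤ W) :
    ∃ k : ℂ, ∀ u : ℝ, 0 ≤ u → ‖(f u : ℂ) + Complex.I * t *
      (∫ w in (0:ℝ)..u, (f w : ℂ) * Complex.exp ((Complex.I * t - 1 / 2) * (u - w))) -
        k * Complex.exp ((Complex.I * t - 1 / 2) * u)‖ ≤ W * Real.exp ((c - 1 / 2) * u) := by
  set cc : ℂ := Complex.I * t - 1 / 2 with hcc
  set d : ℝ → ℂ := fun v => (c : ℂ) + Complex.I * ((v : ℂ) - (t : ℂ)) with hd
  set z : ℝ → ℂ := fun v => ((c - 1 / 2 : ℝ) : ℂ) + Complex.I * v with hz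
  have hdre : ∀ v, (d v).re = c := fun v => by simp [hd]
  have hdn : ∀ v, c ≤ ‖d v‖ := fun v => by
    have := Complex.abs_re_le_norm (d v)
    rw [hdre, abs_of_pos hc] at this
    exact this
  have hdne : ∀ v, d v ≠ 0 := fun v h => by
    have := hdn v
    rw [h, norm_zero] at this
    linarith
  have hzd : ∀ v, z v - cc = d v := fun v => by
    simp only [hz, hcc, hd]
    push_cast
    ring
  have hdt : ∀ v, d v + Complex.I * t = pt c v := fun v => by
    simp only [hd, pt]
    ring
  have hdc : Continuous d := by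
    simp only [hd]
    fun_prop
  have hzc : Continuous z := by
    simp only [hz]
    fun_prop
  have hGd : Integrable fun v => G v / d v := by
    have h1 : Integrable (fun v => G v * (d v)⁻¹) := by
      refine hG.mul_bdd (c := c⁻¹) (hdc.inv₀ hdne).aestronglyMeasurable (Filter.Eventually.of_forall fun v => ?_)
      rw [norm_inv]
      exact inv_anti₀ hc (hdn v)
    simpa only [div_eq_mul_inv] using h1
  have hexpz : ∀ (v u : ℝ), ‖Complex.exp (z v * u)‖ = Real.exp ((c - 1 / 2) * u) := fun v u => by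
    rw [Complex.norm_exp]
    congr 1
    simp [hz]
  have hexpc : ∀ (w u : ℝ), ‖Complex.exp (cc * (u - w))‖ = Real.exp (-(1 / 2) * (u - w)) := fun w u => by
    rw [Complex.norm_exp]
    congr 1
    simp [hcc]
  refine ⟨-(Complex.I * t * ((1 / (2 * Real.pi) : ℝ) : ℂ)) * ∫ v : ℝ, G v / d v, fun u hu => ?_⟩
  -- the inner integral
  have hinner : ∀ v : ℝ, ∫ w in (0:ℝ)..u, G v * Complex.exp (z v * w) * Complex.exp (cc * (u - w)) =
      G v * (Complex.exp (z v * u) - Complex.exp (cc * u)) / d v := by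
    intro v
    have h1 : ∀ w : ℝ, G v * Complex.exp (z v * w) * Complex.exp (cc * (u - w)) =
        G v * Complex.exp (cc * u) * Complex.exp (d v * w) := fun w => by
      rw [mul_assoc, mul_assoc, ← Complex.exp_add, ← Complex.exp_add]
      congr 2
      rw [← hzd v]
      ring
    simp_rw [h1]
    rw [intervalIntegral.integral_const_mul, integral_exp_mul_complex (hdne v)]
    have h2 : Complex.exp (z v * u) = Complex.exp (cc * u) * Complex.exp (d v * u) := by
      rw [← Complex.exp_add]
      congr 1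
      rw [← hzd v]
      ring
    rw [h2]
    simp only [Complex.ofReal_zero, mul_zero, Complex.exp_zero]
    ring
  -- Fubini
  have hprod : Integrable (Function.uncurry fun (w v : ℝ) => G v * Complex.exp (z v * w) * Complex.exp (cc * (u - w)))
      ((volume.restrict (Set.Ioc 0 u)).prod volume) := by
    have h1 : Integrable (fun p : ℝ × ℝ => G p.2) ((volume.restrict (Set.Ioc 0 u)).prod volume) := hG.comp_snd _
    refine h1.norm.mono' ?_ ?_
    · apply AEStronglyMeasurable.mul
      · apply AEStronglyMeasurable.mul h1.aestronglyMeasurable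
        apply Continuous.aestronglyMeasurable
        fun_prop
      · apply Continuous.aestronglyMeasurable
        fun_prop
    · have h2 : ∀ᵐ p : ℝ × ℝ ∂((volume.restrict (Set.Ioc 0 u)).prod volume), p.1 ∈ Set.Ioc 0 u := by
        have h3 : ∀ᵐ w : ℝ ∂(volume.restrict (Set.Ioc 0 u)), w ∈ Set.Ioc 0 u := ae_restrict_mem measurableSet_Ioc
        exact Measure.quasiMeasurePreserving_fst.ae h3
      filter_upwards [h2] with p hp
      simp only [Function.uncurry]
      rw [norm_mul, norm_mul, hexpz, hexpc, mul_assoc, ← Real.exp_add]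
      have h4 : Real.exp ((c - 1 / 2) * p.1 + -(1 / 2) * (u - p.1)) ≤ 1 := by
        rw [Real.exp_le_one_iff]
        nlinarith [hp.1, hp.2]
      calc ‖G p.2‖ * Real.exp ((c - 1 / 2) * p.1 + -(1 / 2) * (u - p.1)) ≤ ‖G p.2‖ * 1 :=
            mul_le_mul_of_nonneg_left h4 (norm_nonneg _)
        _ = ‖G p.2‖ := mul_one _
  have hfub : ∫ w in (0:ℝ)..u, (f w : ℂ) * Complex.exp (cc * (u - w)) =
      ((1 / (2 * Real.pi) : ℝ) : ℂ) * ∫ v : ℝ, G v * (Complex.exp (z v * u) - Complex.exp (cc * u)) / d v := by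
    have h1 : ∫ w in (0:ℝ)..u, (f w : ℂ) * Complex.exp (cc * (u - w)) =
        ∫ w in (0:ℝ)..u, ((1 / (2 * Real.pi) : ℝ) : ℂ) * ∫ v : ℝ, G v * Complex.exp (z v * w) * Complex.exp (cc * (u - w)) := by
      apply intervalIntegral.integral_congr
      intro w hw
      rw [Set.uIcc_of_le hu] at hw
      simp only
      rw [hf w hw.1, integral_mul_const]
      ring
    rw [h1, intervalIntegral.integral_const_mul, intervalIntegral.integral_of_le hu, integral_integral_swap hprod]
    congr 1
    apply integral_congr_ae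
    filter_upwards with v
    rw [← intervalIntegral.integral_of_le hu]
    exact hinner v
  have hGz : Integrable fun v => G v * Complex.exp (z v * u) := by
    refine hG.mul_bdd (c := Real.exp ((c - 1 / 2) * u)) (by
      apply Continuous.aestronglyMeasurable
      fun_prop) (Filter.Eventually.of_forall fun v => ?_)
    rw [hexpz]
  have hGzd : Integrable fun v => G v * Complex.exp (z v * u) / d v := by
    have h1 : Integrable (fun v => G v * Complex.exp (z v * u) * (d v)⁻¹) := by
      refine hGz.mul_bdd (c := c⁻¹) (hdc.inv₀ hdne).aestronglyMeasurable (Filter.Eventually.of_forall fun v => ?_)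
      rw [norm_inv]
      exact inv_anti₀ hc (hdn v)
    simpa only [div_eq_mul_inv] using h1
  have hsplit : ∫ v : ℝ, G v * (Complex.exp (z v * u) - Complex.exp (cc * u)) / d v =
      (∫ v : ℝ, G v * Complex.exp (z v * u) / d v) - Complex.exp (cc * u) * ∫ v : ℝ, G v / d v := by
    rw [← integral_const_mul, ← integral_sub hGzd (hGd.const_mul _)]
    apply integral_congr_ae
    filter_upwards with v
    ring
  have hmain : (∫ v : ℝ, G v * Complex.exp (z v * u)) + Complex.I * t * (∫ v : ℝ, G v * Complex.exp (z v * u) / d v) =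
      ∫ v : ℝ, pt c v * G v / d v * Complex.exp (z v * u) := by
    rw [← integral_const_mul, ← integral_add hGz (hGzd.const_mul _)]
    apply integral_congr_ae
    filter_upwards with v
    rw [← hdt v]
    have := hdne v
    field_simp
  have heq : (f u : ℂ) + Complex.I * t * (∫ w in (0:ℝ)..u, (f w : ℂ) * Complex.exp (cc * (u - w))) -
      -(Complex.I * t * ((1 / (2 * Real.pi) : ℝ) : ℂ)) * (∫ v : ℝ, G v / d v) * Complex.exp (cc * u) =
      ((1 / (2 * Real.pi) : ℝ) : ℂ) * ∫ v : ℝ, pt c v * G v / d v * Complex.exp (z v * u) := by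
    rw [hfub, hsplit, hf u hu, ← hmain]
    ring
  rw [heq, norm_mul, Complex.norm_real, Real.norm_of_nonneg (by positivity)]
  have hnn : 0 ≤ ∫ v : ℝ, ‖pt c v * G v‖ / ‖d v‖ := integral_nonneg fun v => by positivity
  have hb : ‖∫ v : ℝ, pt c v * G v / d v * Complex.exp (z v * u)‖ ≤ W * Real.exp ((c - 1 / 2) * u) := by
    refine (norm_integral_le_integral_norm _).trans ?_
    calc ∫ v : ℝ, ‖pt c v * G v / d v * Complex.exp (z v * u)‖
        = ∫ v : ℝ, ‖pt c v * G v‖ / ‖d v‖ * Real.exp ((c - 1 / 2) * u) := by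
          apply integral_congr_ae
          filter_upwards with v
          rw [norm_mul, norm_div, hexpz]
      _ = (∫ v : ℝ, ‖pt c v * G v‖ / ‖d v‖) * Real.exp ((c - 1 / 2) * u) := integral_mul_const _ _
      _ ≤ W * Real.exp ((c - 1 / 2) * u) := mul_le_mul_of_nonneg_right hW (Real.exp_pos _).le
  have hpi : 1 / (2 * Real.pi) ≤ 1 := by
    rw [div_le_one (by positivity)]
    linarith [Real.pi_gt_three]
  have hWn : 0 ≤ W * Real.exp ((c - 1 / 2) * u) := mul_nonneg (hnn.trans hW) (Real.exp_pos _).le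
  calc 1 / (2 * Real.pi) * ‖∫ v : ℝ, pt c v * G v / d v * Complex.exp (z v * u)‖
      ≤ 1 * (W * Real.exp ((c - 1 / 2) * u)) := mul_le_mul hpi hb (norm_nonneg _) zero_le_one
    _ = W * Real.exp ((c - 1 / 2) * u) := one_mul _

end Pool.Agent.Helper66.IT
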